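import Pool.Agent.H57.AR.Defs
import Pool.Agent.H44.SO.Targets

/-!
# All reducts, all arities: targets
-/

set_option autoImplicit false
set_option linter.unusedVariables false

namespace Pool.Agent.H57.AR

open Pool.Agent.H68.BP Pool.Agent.H58.SF Pool.Agent.H53.GC Pool.Agent.H53.NR Pool.Agent.H53.GR
open Pool.Agent.H57.SO (Pal Col vt Exa Sb FBl Sbn Bh fib sigF Same Uni Can Stp)
open Pool.Agent.H44.SO (ZS JS Loc OfT LInj sig0 str0 B2)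
open Pool.Agent.H44.EQ (BinPol sel kap)
open Pool.Agent.H57.EQ (Cx)
open Function

/-! ### Part C: configurations and canonization -/

/-- Finite structures, with the order given by `rk`. -/
def T_CFR : Prop :=
  ∀ (ρ : Sig) (V : Type) [LinearOrder V] (𝔹 : Str ρ V) (M : ℕ), Univ 𝔹 M →
    ∀ (W R : Type) [Finite W] [LinearOrder R] (rk : W → R), Injective rk → ∀ 𝕏 : Str ρ W,
      OK 𝔹 M 𝕏 → ∃ f : W → V, (∀ x y, f x < f y ↔ rk x < rk y) ∧ pull 𝔹 f = 𝕏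

/-- the palette of the types of elements and pairs -/
def T_PALR : Prop :=
  ∀ (σ ρ : Sig) (V : Type) [LinearOrder V] (𝔸 : Str σ V) (𝔹 : Str ρ V) (M : ℕ), Base 𝔸 𝔹 M →
    ∃ (S X : Type) (P : Pal S X) (c : V → V → S ⊕ X), Lnk P 𝔹 c

/-- Tuples without relations between more than two elements: the type is given by the colours. -/
def T_SAM : Prop :=
  ∀ (ρ : Sig) (V S X : Type) (P : Pal S X) (𝔹 : Str ρ V) (c : V → V → S ⊕ X), Lnk P 𝔹 c →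
    ∀ (W : Type) (x y : W → V), Two 𝔹 x → Two 𝔹 y →
      (∀ a b, c (x a) (x b) = c (y a) (y b)) → tp 𝔹 x = tp 𝔹 y

/-- Configurations of pairs, without relations between more than two elements. -/
def T_CF2 : Prop :=
  ∀ (σ ρ : Sig) (V S X : Type) [LinearOrder V] (P : Pal S X) (𝔸 : Str σ V) (𝔹 : Str ρ V) (M : ℕ)
    (c : V → V → S ⊕ X), StpR P 𝔸 𝔹 M c → ∀ (W R : Type) [Finite W] [LinearOrder R] (rk : W → R)
      (t : W → S) (d : W → W → X), Injective rk →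
      (∀ x y, x ≠ y → P.ls (d x y) = t x ∧ d y x = P.rv (d x y)) →
      (∀ x y z, x ≠ y → y ≠ z → x ≠ z → d x y = P.fr (t x) (t y) ∨ d y z = P.fr (t y) (t z) ∨
        d x z = P.fr (t x) (t z)) →
      ∃ f : W → V, (∀ x y, f x < f y ↔ rk x < rk y) ∧ (∀ x, c (f x) (f x) = Sum.inl (t x)) ∧
        (∀ x y, x ≠ y → c (f x) (f y) = Sum.inr (d x y)) ∧ Two 𝔹 f

/-- Systems of copies: the name `n` stands for the element `u n`; a tuple of names is in a relation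
if the tuple of the elements is and different names in it are related by `r` and stand for different
elements. -/
def T_SYR : Prop :=
  ∀ (σ ρ : Sig) (V S X : Type) [LinearOrder V] (P : Pal S X) (𝔸 : Str σ V) (𝔹 : Str ρ V) (M : ℕ)
    (c : V → V → S ⊕ X), StpR P 𝔸 𝔹 M c → ∀ (W R : Type) [Finite W] [LinearOrder R] (rk : W → R)
      (u : W → V) (r : W → W → Prop), Injective rk → (∀ x y, r x y → r y x) →
      ∃ f : W → V, (∀ x y, f x < f y ↔ rk x < rk y) ∧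
        (∀ (l : Fin ρ.m) (z : Fin (ρ.ar l) → W), 𝔹 l (fun i => f (z i)) ↔
          (𝔹 l (fun i => u (z i)) ∧ ∀ i j, z i = z j ∨ (r (z i) (z j) ∧ u (z i) ≠ u (z j)))) ∧
        (∀ x, c (f x) (f x) = c (u x) (u x)) ∧
        ∀ x y, x ≠ y → (r x y → u x ≠ u y → c (f x) (f y) = c (u x) (u y)) ∧
          (¬ (r x y ∧ u x ≠ u y) →
            c (f x) (f y) = Sum.inr (P.fr (vt P c (u x)) (vt P c (u y))))

/-- The maps `G i` lie in zones. -/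
def ZonR {V : Type} {ρ : Sig} [LinearOrder V] (𝔹 : Str ρ V) {I W : Type} (rk : I → ℕ)
    (G : I → W → V) : Prop :=
  (∀ i j u w, rk i < rk j → G i u < G j w) ∧
    ∀ (l : Fin ρ.m) (z : Fin (ρ.ar l) → I × W), 𝔹 l (fun a => G (z a).1 (z a).2) →
      ∀ a b, (z a).1 = (z b).1

/-- generic pairs of blocks -/
def GenR {V : Type} {ρ : Sig} [LinearOrder V] (𝔹 : Str ρ V) {I : Type} (rk : I → ℕ)
    (z z' : I → V) : Prop :=
  ZonR 𝔹 rk (fun i (b : Bool) => cond b (z' i) (z i))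

/-- Generic placement: copies of the maps `G i` in zones. -/
def T_GENR : Prop :=
  ∀ (σ ρ : Sig) (V S X : Type) [LinearOrder V] (P : Pal S X) (𝔸 : Str σ V) (𝔹 : Str ρ V) (M : ℕ)
    (c : V → V → S ⊕ X), StpR P 𝔸 𝔹 M c → ∀ (I W : Type) [Finite I] [Finite W] (rk : I → ℕ),
      Injective rk → ∀ G : I → W → V, ∃ G' : I → W → V,
        (∀ i, tp 𝔹 (G' i) = tp 𝔹 (G i) ∧ ∀ u w, G' i u < G' i w ↔ G i u < G i w) ∧ ZonR 𝔹 rk G'

/-- Tuples in arbitrary orders. -/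
def T_ORDR : Prop :=
  ∀ (σ ρ : Sig) (V S X : Type) [LinearOrder V] (P : Pal S X) (𝔸 : Str σ V) (𝔹 : Str ρ V) (M : ℕ)
    (c : V → V → S ⊕ X), StpR P 𝔸 𝔹 M c → ∀ (W : Type) [Finite W] (x : W → V) (rk : W → ℕ),
      (∀ a b, rk a = rk b ↔ x a = x b) → ∃ x' : W → V, tp 𝔹 x' = tp 𝔹 x ∧
        ∀ a b, x' a < x' b ↔ rk a < rk b

/-- Canonization of relations on the power `I → V`. -/
def T_GCN : Prop :=
  ∀ (ρ : Sig) (V : Type) [LinearOrder V] (𝔹 : Str ρ V), RamFin 𝔹 →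
    ∀ (I Λ : Type) [Finite I] [Finite Λ] (a : Λ → ℕ) (F : (l : Λ) → (Fin (a l) → I → V) → Prop),
      ∃ H : (l : Λ) → (Fin (a l) → I → V) → Prop,
        (∀ (l : Λ) (u u' : Fin (a l) → I → V),
          SameTp 𝔹 (fun q : Fin (a l) × I => u q.1 q.2) (fun q => u' q.1 q.2) →
            (H l u ↔ H l u')) ∧
        ∀ K : Finset V, ∃ g : V → V, (∀ x ∈ K, ∀ y ∈ K, x < y → g x < g y) ∧
          (∀ (l : Fin ρ.m) (z : Fin (ρ.ar l) → V), (∀ i, z i ∈ K) →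
            (𝔹 l (fun i => g (z i)) ↔ 𝔹 l z)) ∧
          ∀ (l : Λ) (u : Fin (a l) → I → V), (∀ b i, u b i ∈ K) →
            (H l u ↔ F l (fun b i => g (u b i)))

/-- Limits of local maps and canonization, keeping an invariant property `R` of the pairs: the
ordered types of the values are given by `H`, their colours by `h`. -/
def T_CANR : Prop :=
  ∀ (σ ρ : Sig) (V S X : Type) [LinearOrder V] (P : Pal S X) (𝔸 : Str σ V) (𝔹 : Str ρ V) (M : ℕ)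
    (c : V → V → S ⊕ X), StpR P 𝔸 𝔹 M c → ∀ (I : Type) [Finite I]
      (R : (I → V) → (I → V) → S ⊕ X → Prop),
      (∀ v w v' w' y, SameTp 𝔹 (Sum.elim v w) (Sum.elim v' w') → R v w y → R v' w' y) →
      (∀ (W : Type) [Finite W] (G : I → W → V), (∀ u w, (∀ i, G i u = G i w) → u = w) →
        ∃ ψ : W → V, Cx 𝔸 G ψ ∧
          ∀ u w, R (fun i => G i u) (fun i => G i w) (c (ψ u) (ψ w))) →
      ∃ (H : OT ρ (I → V)) (h : (I → V) → (I → V) → S ⊕ X),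
        (∀ (k : ℕ) (u u' : Fin k → I → V),
          SameTp 𝔹 (fun q : Fin k × I => u q.1 q.2) (fun q => u' q.1 q.2) →
            pullO H u = pullO H u' ∧ ∀ a b, h (u a) (u b) = h (u' a) (u' b)) ∧
        (∀ v w, R v w (h v w)) ∧
        ∀ (W : Type) [Finite W] (G : I → W → V), ∃ ψ : W → V, Cx 𝔸 G ψ ∧
          tpo 𝔹 ψ = pullO H (fun w i => G i w) ∧
          ∀ u w, c (ψ u) (ψ w) = h (fun i => G i u) (fun i => G i w)

/-! ### Part K: kernels -/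

/-- `x` and `y` are free from each other -/
def Fre {V S X : Type} (P : Pal S X) (c : V → V → S ⊕ X) (x y : V) : Prop :=
  c x y = Sum.inr (P.fr (vt P c x) (vt P c y))

/-- There are no three different elements in the tuple `x` such that no two of them are free from
each other. -/
def NoTri {V S X W : Type} (P : Pal S X) (c : V → V → S ⊕ X) (x : W → V) : Prop :=
  ∀ a b d, x a ≠ x b → x b ≠ x d → x a ≠ x d →
    Fre P c (x a) (x b) ∨ Fre P c (x b) (x d) ∨ Fre P c (x a) (x d)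

/-- A structure of pairs: its finite substructures are the configurations of pairs of `V` without
relations between more than two elements and without three elements such that no two of them are
free from each other. -/
structure Shd {V S X V₀ : Type} {ρ : Sig} [LinearOrder V] [LinearOrder V₀] (P : Pal S X)
    (𝔹 : Str ρ V) (M : ℕ) (c : V → V → S ⊕ X) (c₀ : V₀ → V₀ → S ⊕ X) : Prop where
  stp : Stp P (str0 V₀) M c₀
  lift : ∀ (W : Type) [Finite W] (x : W → V₀), ∃ y : W → V, Two 𝔹 y ∧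
    ∀ a b, (y a < y b ↔ x a < x b) ∧ c (y a) (y b) = c₀ (x a) (x b)
  down : ∀ (W : Type) [Finite W] (y : W → V), NoTri P c y → ∃ x : W → V₀,
    ∀ a b, (x a < x b ↔ y a < y b) ∧ c₀ (x a) (x b) = c (y a) (y b)

/-- existence of the structure of pairs -/
def T_SHV : Prop :=
  ∀ (σ ρ : Sig) (V S X : Type) [LinearOrder V] (P : Pal S X) (𝔸 : Str σ V) (𝔹 : Str ρ V) (M : ℕ)
    (c : V → V → S ⊕ X), StpR P 𝔸 𝔹 M c →
      ∃ (V₀ : Type) (_ : LinearOrder V₀) (c₀ : V₀ → V₀ → S ⊕ X), Shd P 𝔹 M c c₀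

/-- The pair of blocks `z, z'` in the structure of pairs has the same type as `w, w'`. -/
def LikP {V S X V₀ : Type} {ρ : Sig} [LinearOrder V] [LinearOrder V₀] (𝔹 : Str ρ V)
    (c : V → V → S ⊕ X) (c₀ : V₀ → V₀ → S ⊕ X) {I : Type} (w w' : I → V) (z z' : I → V₀) : Prop :=
  Two 𝔹 (Sum.elim w w') ∧
    ∀ i j, (Sum.elim z z' i < Sum.elim z z' j ↔ Sum.elim w w' i < Sum.elim w w' j) ∧
      c₀ (Sum.elim z z' i) (Sum.elim z z' j) = c (Sum.elim w w' i) (Sum.elim w w' j)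

open Classical in
/-- the type of a pair of values where pairs of different values are made free -/
noncomputable def shv {V S X : Type} (P : Pal S X) {I : Type} (H : (I → V) → (I → V) → S ⊕ X)
    (w w' : I → V) : S ⊕ X :=
  if ∃ s, H w w' = Sum.inl s then H w w'
  else Sum.inr (P.fr (Sum.elim id P.ls (H w w)) (Sum.elim id P.ls (H w' w')))

/-- `H₀` is given by `H`, and pairs of different values are made free. -/
def SpecK {V S X V₀ : Type} {ρ : Sig} [LinearOrder V] [LinearOrder V₀] (P : Pal S X)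
    (𝔹 : Str ρ V) (c : V → V → S ⊕ X) (c₀ : V₀ → V₀ → S ⊕ X) {I : Type}
    (H : (I → V) → (I → V) → S ⊕ X) (H₀ : (I → V₀) → (I → V₀) → S ⊕ X) : Prop :=
  ∀ (w w' : I → V) (z z' : I → V₀), LikP 𝔹 c c₀ w w' z z' → H₀ z z' = shv P H w w'

/-- the parts of the hypotheses on the Olšák function which are needed for the equalities -/
structure CoreW {V S X : Type} {σ : Sig} [LinearOrder V] (P : Pal S X) (𝔸 : Str σ V)
    (c : V → V → S ⊕ X) (h : (Fin 6 → V) → (Fin 6 → V) → S ⊕ X) : Prop where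
  can : Can 𝔸 c (Fin 6) h
  exact : Exa h
  ncol : ∀ (s : S) (z z' : Fin 6 → V), FBl P c s z → FBl P c s z' → (∀ l l', z l ≠ z' l') →
    ∀ s', h z z' ≠ Sum.inl s'

/-- canonical maps on the structure of pairs -/
def T_SHB : Prop :=
  ∀ (σ ρ : Sig) (V S X : Type) [LinearOrder V] (P : Pal S X) (𝔸 : Str σ V) (𝔹 : Str ρ V) (M : ℕ)
    (c : V → V → S ⊕ X), StpR P 𝔸 𝔹 M c → ∀ (V₀ : Type) [LinearOrder V₀]
      (c₀ : V₀ → V₀ → S ⊕ X), Shd P 𝔹 M c c₀ → ∀ (I : Type) [Finite I]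
        (H : (I → V) → (I → V) → S ⊕ X), Can2 𝔸 𝔹 c I H →
        ∃ H₀, Can (str0 V₀) c₀ I H₀ ∧ SpecK P 𝔹 c c₀ H H₀

/-- the Olšák function on the structure of pairs -/
def T_SHC : Prop :=
  ∀ (σ ρ : Sig) (V S X : Type) [LinearOrder V] (P : Pal S X) (𝔸 : Str σ V) (𝔹 : Str ρ V) (M : ℕ)
    (c : V → V → S ⊕ X), StpR P 𝔸 𝔹 M c → ∀ (V₀ : Type) [LinearOrder V₀]
      (c₀ : V₀ → V₀ → S ⊕ X), Shd P 𝔹 M c c₀ → ∀ h, Core2 P 𝔸 𝔹 c h →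
        ∃ h₀, CoreW P (str0 V₀) c₀ h₀ ∧ SpecK P 𝔹 c c₀ h h₀

/-- `Pool.Agent.H44.SO.T_JNE` with weaker hypotheses -/
def T_JNEW : Prop :=
  ∀ (σ : Sig) (V S X : Type) [LinearOrder V] (P : Pal S X) (𝔸 : Str σ V) (M : ℕ)
    (c : V → V → S ⊕ X), Stp P 𝔸 M c → ∀ h, CoreW P 𝔸 c h → ∀ (s : S) (κ : Fin 6 → ℕ)
      (J : Set (Fin 6)), JS P c s h κ J → J.Nonempty

/-- `Pool.Agent.H44.SO.T_SEP` with weaker hypotheses -/
def T_SEPW : Prop :=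
  ∀ (σ : Sig) (V S X : Type) [LinearOrder V] (P : Pal S X) (𝔸 : Str σ V) (M : ℕ)
    (c : V → V → S ⊕ X), Stp P 𝔸 M c → ∀ h, CoreW P 𝔸 c h → ∀ (s : S) (κ κ' : Fin 6 → ℕ)
      (J J' : Set (Fin 6)), JS P c s h κ J → JS P c s h κ' J' →
      (∀ l l', κ l = κ l' → (l ∈ J ↔ l' ∈ J)) → (∀ l l', κ' l = κ' l' → (l ∈ J' ↔ l' ∈ J')) →
      ∀ v v', ZS P c s κ v v → ZS P c s κ' v' v' → (∀ l ∈ J, ∀ l' ∈ J', v l ≠ v' l') →
      ∀ s', h v v' ≠ Sum.inl s'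

/-- `Pool.Agent.H44.SO.T_LTR` with weaker hypotheses -/
def T_LTRW : Prop :=
  ∀ (σ : Sig) (V S X : Type) [LinearOrder V] (P : Pal S X) (𝔸 : Str σ V) (M : ℕ)
    (c : V → V → S ⊕ X), Stp P 𝔸 M c → ∀ h, CoreW P 𝔸 c h → ∀ (s : S)
      (J : Fin 3 → Set (Fin 6)), (∀ r, JS P c s h (pat r 0 7) (J r)) →
      (∀ r l l', pat r (0 : ℕ) 7 l = pat r (0 : ℕ) 7 l' → (l ∈ J r ↔ l' ∈ J r)) →
      (∀ r, ∀ l ∈ J r, ∀ l' ∈ J r, pat r (0 : ℕ) 7 l = pat r (0 : ℕ) 7 l') →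
      ∀ i₀ : Fin 6, ∃ r, i₀ ∉ J r ∧ ∀ l l', (l ∈ J r ↔ l' ∈ J r) ↔
        pat r (0 : ℕ) 7 l = pat r (0 : ℕ) 7 l'

/-- Tameness: on generic pairs of blocks the equality of the values depends only on the types and
on the set of the coordinates where the blocks agree. -/
def T_TAMR : Prop :=
  ∀ (σ ρ : Sig) (V S X : Type) [LinearOrder V] (P : Pal S X) (𝔸 : Str σ V) (𝔹 : Str ρ V) (M : ℕ)
    (c : V → V → S ⊕ X), StpR P 𝔸 𝔹 M c → ∀ (I : Type) [Finite I] (rk : I → ℕ), Injective rk →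
      ∀ H, Can2 𝔸 𝔹 c I H → ∀ z z' w w' : I → V, GenR 𝔹 rk z z' → GenR 𝔹 rk w w' →
        (∀ i, vt P c (w i) = vt P c (z i)) → (∀ i, vt P c (w' i) = vt P c (z' i)) →
        (∀ i, w i = w' i ↔ z i = z' i) → (∃ s, H z z' = Sum.inl s) → ∃ s, H w w' = Sum.inl s

/-- Canonical maps give behaviours. -/
def T_BHHR : Prop :=
  ∀ (σ ρ : Sig) (V S X : Type) [LinearOrder V] (P : Pal S X) (𝔸 : Str σ V) (𝔹 : Str ρ V) (M : ℕ)
    (c : V → V → S ⊕ X), StpR P 𝔸 𝔹 M c → ∀ (I : Type) [Finite I] (rk : I → ℕ), Injective rk →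
      ∀ H, Can2 𝔸 𝔹 c I H → ∃ (τ : (I → S) → S) (κ : (I → S) → (I → S) → Set I → Prop),
        Bh P 𝔸 c τ κ ∧
        (∀ t, ∃ z : I → V, GenR 𝔹 rk z z ∧ (∀ i, vt P c (z i) = t i) ∧
          H z z = Sum.inl (τ t)) ∧
        ∀ t t' A, κ t t' A → ∃ z z' : I → V, GenR 𝔹 rk z z' ∧ (∀ i, vt P c (z i) = t i) ∧
          (∀ i, vt P c (z' i) = t' i) ∧ (∀ i, z i = z' i ↔ i ∈ A) ∧ ∃ s, H z z' = Sum.inl s

/-- the kernel of maps with a given action on the types -/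
def T_KERR : Prop :=
  ∀ (σ ρ : Sig) (V S X : Type) [LinearOrder V] (P : Pal S X) (𝔸 : Str σ V) (𝔹 : Str ρ V) (M : ℕ)
    (c : V → V → S ⊕ X), StpR P 𝔸 𝔹 M c → ∀ (I : Type) [Finite I] (τ : (I → S) → S),
      Sbn P 𝔸 c τ → ∃ κ, Bh P 𝔸 c τ κ

/-- canonization of behaviours -/
def T_CABR : Prop :=
  ∀ (σ ρ : Sig) (V S X : Type) [LinearOrder V] (P : Pal S X) (𝔸 : Str σ V) (𝔹 : Str ρ V) (M : ℕ)
    (c : V → V → S ⊕ X), StpR P 𝔸 𝔹 M c → ∀ (I : Type) [Finite I] (τ : (I → S) → S)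
      (κ : (I → S) → (I → S) → Set I → Prop), Bh P 𝔸 c τ κ → ∃ Ψ, GmR P 𝔸 𝔹 c τ κ Ψ

/-- The positions in `J` determine the values of `h` on blocks of the shape `κ` of elements of
type `s`. -/
def JSR {V S X : Type} {ρ : Sig} [LinearOrder V] (P : Pal S X) (𝔹 : Str ρ V) (c : V → V → S ⊕ X)
    (s : S) (h : (Fin 6 → V) → (Fin 6 → V) → S ⊕ X) (κ : Fin 6 → ℕ) (J : Set (Fin 6)) : Prop :=
  ∀ z z', ZS P c s κ z z' → Two 𝔹 (Sum.elim z z') →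
    ((∃ s', h z z' = Sum.inl s') ↔ ∀ l ∈ J, z l = z' l)

/-- Existence of the set of the determining positions. -/
def T_JEXR : Prop :=
  ∀ (σ ρ : Sig) (V S X : Type) [LinearOrder V] (P : Pal S X) (𝔸 : Str σ V) (𝔹 : Str ρ V) (M : ℕ)
    (c : V → V → S ⊕ X), StpR P 𝔸 𝔹 M c → ∀ h, Can2 𝔸 𝔹 c (Fin 6) h → ∀ (s : S) (κ : Fin 6 → ℕ),
      ∃ J : Set (Fin 6), (∀ l l', κ l = κ l' → (l ∈ J ↔ l' ∈ J)) ∧ JSR P 𝔹 c s h κ J

/-- There are determining positions. -/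
def T_JNER : Prop :=
  ∀ (σ ρ : Sig) (V S X : Type) [LinearOrder V] (P : Pal S X) (𝔸 : Str σ V) (𝔹 : Str ρ V) (M : ℕ)
    (c : V → V → S ⊕ X), StpR P 𝔸 𝔹 M c → ∀ h, Core2 P 𝔸 𝔹 c h → ∀ (s : S) (κ : Fin 6 → ℕ)
      (J : Set (Fin 6)), JSR P 𝔹 c s h κ J → J.Nonempty

/-- Blocks with different determining entries have different values. -/
def T_SEPR : Prop :=
  ∀ (σ ρ : Sig) (V S X : Type) [LinearOrder V] (P : Pal S X) (𝔸 : Str σ V) (𝔹 : Str ρ V) (M : ℕ)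
    (c : V → V → S ⊕ X), StpR P 𝔸 𝔹 M c → ∀ h, Core2 P 𝔸 𝔹 c h → ∀ (s : S) (κ κ' : Fin 6 → ℕ)
      (J J' : Set (Fin 6)), JSR P 𝔹 c s h κ J → JSR P 𝔹 c s h κ' J' →
      (∀ l l', κ l = κ l' → (l ∈ J ↔ l' ∈ J)) → (∀ l l', κ' l = κ' l' → (l ∈ J' ↔ l' ∈ J')) →
      ∀ v v', ZS P c s κ v v → ZS P c s κ' v' v' → Two 𝔹 (Sum.elim v v') →
      (∀ l ∈ J, ∀ l' ∈ J', v l ≠ v' l') → ∀ s', h v v' ≠ Sum.inl s'

/-- The special blocks: their determining letter does not depend on the pattern `r`. -/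
def T_LTRR : Prop :=
  ∀ (σ ρ : Sig) (V S X : Type) [LinearOrder V] (P : Pal S X) (𝔸 : Str σ V) (𝔹 : Str ρ V) (M : ℕ)
    (c : V → V → S ⊕ X), StpR P 𝔸 𝔹 M c → ∀ h, Core2 P 𝔸 𝔹 c h → ∀ (s : S)
      (J : Fin 3 → Set (Fin 6)), (∀ r, JSR P 𝔹 c s h (pat r 0 7) (J r)) →
      (∀ r l l', pat r (0 : ℕ) 7 l = pat r (0 : ℕ) 7 l' → (l ∈ J r ↔ l' ∈ J r)) →
      (∀ r, ∀ l ∈ J r, ∀ l' ∈ J r, pat r (0 : ℕ) 7 l = pat r (0 : ℕ) 7 l') →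
      ∀ i₀ : Fin 6, ∃ r, i₀ ∉ J r ∧ ∀ l l', (l ∈ J r ↔ l' ∈ J r) ↔
        pat r (0 : ℕ) 7 l = pat r (0 : ℕ) 7 l'

/-- Two local maps with complementary equalities. -/
def T_MINR : Prop :=
  ∀ (σ : Sig) (V S X : Type) (P : Pal S X) (𝔸 : Str σ V)
    (c : V → V → S ⊕ X), ∀ s : S, ¬ LInj P 𝔸 c s →
    ∃ (n : ℕ) (q : Fin n → V) (γ₀ γ₁ : Fin n × Fin n → V) (p₀ p₀' p₁ p₁' : Fin n × Fin n)
      (U : Set ((Fin n × Fin n) × (Fin n × Fin n))), Injective q ∧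
      Loc P 𝔸 c q γ₀ ∧ Loc P 𝔸 c q γ₁ ∧ γ₀ p₀ = γ₀ p₀' ∧ γ₁ p₀ ≠ γ₁ p₀' ∧ γ₁ p₁ = γ₁ p₁' ∧
      γ₀ p₁ ≠ γ₀ p₁' ∧ (∀ γ, Loc P 𝔸 c q γ → ∃ u ∈ U, γ u.1 = γ u.2) ∧
      ∀ u ∈ U, OfT P c q s u.1 ∧ OfT P c q s u.2 ∧
        (u = (p₀, p₀') ∨ u = (p₁, p₁') ∨ (γ₀ u.1 ≠ γ₀ u.2 ∧ γ₁ u.1 ≠ γ₁ u.2))

/-- Composition with copies of local maps. -/
def T_CMPR : Prop :=
  ∀ (σ ρ : Sig) (V S X : Type) [LinearOrder V] (P : Pal S X) (𝔸 : Str σ V) (𝔹 : Str ρ V) (M : ℕ)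
    (c : V → V → S ⊕ X), StpR P 𝔸 𝔹 M c → ∀ h, Core2 P 𝔸 𝔹 c h → ∀ (n : ℕ) (q : Fin n → V)
      (γ : Fin 6 → Fin n × Fin n → V) (z : Fin n × Fin n → Fin 6 → V),
      (∀ l, Loc P 𝔸 c q (γ l)) →
      (∀ l, tp 𝔹 (fun p => z p l) = tp 𝔹 (γ l)) →
      (∀ p l l', z p l ≠ z p l' →
        c (z p l) (z p l') = Sum.inr (P.fr (vt P c (z p l)) (vt P c (z p l')))) →
      (∀ p p', Two 𝔹 (Sum.elim (z p) (z p'))) →
      (∀ (s : S) (p p' : Fin n × Fin n), OfT P c q s p → OfT P c q s p' → p.1 ≠ p'.1 →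
        p.2 ≠ p'.2 → ∀ l l', z p l ≠ z p' l') →
      ∃ δ : Fin n × Fin n → V, Loc P 𝔸 c q δ ∧
        ∀ p p', δ p = δ p' ↔ ∃ s', h (z p) (z p') = Sum.inl s'

/-- Blocks which consist of copies of `γ₀` (in the positions `l ∈ L`) and of `γ₁` (in the other
positions); there are no relations between different copies, but they share the elements which
belong to `s₀` and `s₁`. -/
def T_CONR : Prop :=
  ∀ (σ ρ : Sig) (V S X : Type) [LinearOrder V] (P : Pal S X) (𝔸 : Str σ V) (𝔹 : Str ρ V) (M : ℕ)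
    (c : V → V → S ⊕ X), StpR P 𝔸 𝔹 M c → ∀ (Q : Type) [Finite Q] (γ₀ γ₁ : Q → V)
      (e : Fin 6 → ℕ) (L : Set (Fin 6)) (s₀ s₁ : Set V), (∀ l, e l = 0 ∨ e l = 7) →
      (∀ l l', (l ∈ L ↔ l' ∈ L) ↔ e l = e l') →
      ∃ z : Q → Fin 6 → V,
        (∀ l, tp 𝔹 (fun p => z p l) = tp 𝔹 (fun p => sel L γ₀ γ₁ l p)) ∧
        (∀ p l l', z p l ≠ z p l' →
          c (z p l) (z p l') = Sum.inr (P.fr (vt P c (z p l)) (vt P c (z p l')))) ∧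
        (∀ p p', Two 𝔹 (Sum.elim (z p) (z p'))) ∧
        (∀ p (s : S), (∀ l, c (sel L γ₀ γ₁ l p) (sel L γ₀ γ₁ l p) = Sum.inl s) →
          ZS P c s (kap e {l | sel L γ₀ γ₁ l p ∈ sel L s₀ s₁ l}) (z p) (z p)) ∧
        ∀ p p' l l', z p l = z p' l' ↔ ((l ∈ L ↔ l' ∈ L) ∧
          sel L γ₀ γ₁ l p = sel L γ₀ γ₁ l' p' ∧ (l = l' ∨ sel L γ₀ γ₁ l p ∈ sel L s₀ s₁ l))

/-- Two determining positions give local injections. -/
def T_TWOR : Prop :=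
  ∀ (σ ρ : Sig) (V S X : Type) [LinearOrder V] (P : Pal S X) (𝔸 : Str σ V) (𝔹 : Str ρ V) (M : ℕ)
    (c : V → V → S ⊕ X), StpR P 𝔸 𝔹 M c → ∀ h, Core2 P 𝔸 𝔹 c h → ∀ (s : S) (κ : Fin 6 → ℕ)
      (J : Set (Fin 6)), JSR P 𝔹 c s h κ J → ∀ l l', l ∈ J → l' ∈ J → κ l ≠ κ l' → LInj P 𝔸 c s

/-- Local injections. -/
def T_INLR : Prop :=
  ∀ (σ ρ : Sig) (V S X : Type) [LinearOrder V] (P : Pal S X) (𝔸 : Str σ V) (𝔹 : Str ρ V) (M : ℕ)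
    (c : V → V → S ⊕ X), StpR P 𝔸 𝔹 M c → ∀ h, Core2 P 𝔸 𝔹 c h → ∀ s : S, LInj P 𝔸 c s

/-- From local injections to behaviours. -/
def T_LCBR : Prop :=
  ∀ (σ ρ : Sig) (V S X : Type) [LinearOrder V] (P : Pal S X) (𝔸 : Str σ V) (𝔹 : Str ρ V) (M : ℕ)
    (c : V → V → S ⊕ X), StpR P 𝔸 𝔹 M c → ∀ s : S, LInj P 𝔸 c s →
      ∃ τ κ, B2 P 𝔸 c τ κ ∧ ∀ A, κ (fun _ => s) (fun _ => s) A → A = Set.univ

/-- the injection -/
def INJ {σ : Sig} {V S X : Type} (P : Pal S X) (𝔸 : Str σ V) (c : V → V → S ⊕ X) : Prop :=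
  ∃ (τ : (Fin 2 → S) → S) (κ : (Fin 2 → S) → (Fin 2 → S) → Set (Fin 2) → Prop),
    Bh P 𝔸 c τ κ ∧ (∀ s, τ (fun _ => s) = s) ∧
    ∀ s s' A, κ (fun _ => s) (fun _ => s') A → A = Set.univ

/-- All types together. -/
def T_CMBR : Prop :=
  ∀ (σ ρ : Sig) (V S X : Type) [LinearOrder V] (P : Pal S X) (𝔸 : Str σ V) (𝔹 : Str ρ V) (M : ℕ)
    (c : V → V → S ⊕ X), StpR P 𝔸 𝔹 M c →
      (∀ s : S, ∃ τ κ, B2 P 𝔸 c τ κ ∧ ∀ A, κ (fun _ => s) (fun _ => s) A → A = Set.univ) →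
      INJ P 𝔸 c

/-- intersection of kernels -/
def T_BHIR : Prop :=
  ∀ (σ : Sig) (V S X : Type) (P : Pal S X) (𝔸 : Str σ V) (c : V → V → S ⊕ X), INJ P 𝔸 c →
    ∀ (I : Type) (τ : (I → S) → S) (κ κ' : (I → S) → (I → S) → Set I → Prop),
      Bh P 𝔸 c τ κ → Bh P 𝔸 c τ κ' → Bh P 𝔸 c τ (fun t t' A => κ t t' A ∧ κ' t t' A)

/-- cyclic behaviours -/
def T_CYBR : Prop :=
  ∀ (σ : Sig) (V S X : Type) (P : Pal S X) (𝔸 : Str σ V) (c : V → V → S ⊕ X),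
    (∀ (I : Type) (τ : (I → S) → S) (κ κ' : (I → S) → (I → S) → Set I → Prop),
      Bh P 𝔸 c τ κ → Bh P 𝔸 c τ κ' → Bh P 𝔸 c τ (fun t t' A => κ t t' A ∧ κ' t t' A)) →
    ∀ (p : ℕ), p.Prime → ∀ (τ : (ZMod p → S) → S)
      (κ : (ZMod p → S) → (ZMod p → S) → Set (ZMod p) → Prop), Bh P 𝔸 c τ κ →
      (∀ t, τ (fun i => t (i + 1)) = τ t) →
      ∃ κ' : (ZMod p → S) → (ZMod p → S) → Set (ZMod p) → Prop, Bh P 𝔸 c τ κ' ∧
        ∀ t t' A, κ' (fun i => t (i + 1)) (fun i => t' (i + 1)) {i | i + 1 ∈ A} ↔ κ' t t' A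

/-! ### Part F: the fibres -/

/-- The structure of the fibres is a structure of the kind of `Pool.Agent.H53.GR`. -/
def T_CPSR : Prop :=
  ∀ (σ ρ : Sig) (V S X : Type) [LinearOrder V] [Finite S] (P : Pal S X) (𝔸 : Str σ V)
    (𝔹 : Str ρ V) (M : ℕ) (c : V → V → S ⊕ X), StpR P 𝔸 𝔹 M c → Setp (fib 𝔸 M c) 𝔹 M

/-- `h'` is given by `h` on blocks. -/
def BlkR {V S X : Type} {ρ : Sig} [LinearOrder V] (P : Pal S X) (𝔹 : Str ρ V)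
    (c : V → V → S ⊕ X) (h h' : Ty ρ (Fin 6 → V)) : Prop :=
  ExaT h' ∧ ∀ F : Finset (Fin 6 → V), ∃ e : (Fin 6 → V) → Fin 6 → V,
    (∀ v ∈ F, ∀ w ∈ F, v ≠ w → ∀ l l', e v l ≠ e w l') ∧
    (∀ (l : Fin 6) (R : Fin ρ.m) (u : Fin (ρ.ar R) → Fin 6 → V), (∀ i, u i ∈ F) →
      (𝔹 R (fun i => e (u i) l) ↔
        (𝔹 R (fun i => u i l) ∧ ∀ i j, u i l = u j l → u i = u j))) ∧
    (∀ v ∈ F, ∀ l l', e v l ≠ e v l' →
      c (e v l) (e v l') = Sum.inr (P.fr (vt P c (v l)) (vt P c (v l')))) ∧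
    (∀ v ∈ F, ∀ w ∈ F, Two 𝔹 (Sum.elim (e v) (e w))) ∧
    ∀ (k : ℕ) (u : Fin k → Fin 6 → V), (∀ i, u i ∈ F) → pullT h' u = pullT h (fun i => e (u i))

/-- systems of blocks -/
def T_BKSR : Prop :=
  ∀ (σ ρ : Sig) (V S X : Type) [LinearOrder V] (P : Pal S X) (𝔸 : Str σ V) (𝔹 : Str ρ V) (M : ℕ)
    (c : V → V → S ⊕ X), StpR P 𝔸 𝔹 M c → ∀ h : Ty ρ (Fin 6 → V), CanR 𝔸 𝔹 (Fin 6) h →
      ExaT h → ∃ h', BlkR P 𝔹 c h h'

/-- the map for the structure of the fibres -/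
def T_BKGR : Prop :=
  ∀ (σ ρ : Sig) (V S X : Type) [LinearOrder V] [Finite S] (P : Pal S X) (𝔸 : Str σ V)
    (𝔹 : Str ρ V) (M : ℕ) (c : V → V → S ⊕ X), StpR P 𝔸 𝔹 M c → ∀ h h2 h',
      CoreR P 𝔸 𝔹 c h h2 → BlkR P 𝔹 c h h' →
      GMap (fib 𝔸 M c) 𝔹 M (fun R u => h'.2 R u ∧ ∀ i j, h'.1 (u i) (u j) → u i = u j)

/-- Combinations by polymorphisms of the template of the fibres. -/
def T_DDXR : Prop :=
  ∀ (σ ρ : Sig) (V S X : Type) [LinearOrder V] [Finite S] (P : Pal S X) (𝔸 : Str σ V)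
    (𝔹 : Str ρ V) (M : ℕ) (c : V → V → S ⊕ X), StpR P 𝔸 𝔹 M c → ∀ (A : Type) [Finite A]
      [Nonempty A] (N : (A → Dm ρ M) → Dm ρ M), IsPoly (tf 𝔸 𝔹 M c) (tf 𝔸 𝔹 M c) N →
      ∀ (W : Type) [Finite W] (rk : W → ℕ), Injective rk → ∀ (G : A → W → V),
        (∀ a, Injective (G a)) → (∀ a a' w, vt P c (G a w) = vt P c (G a' w)) →
        ∃ ψ : W → V, Injective ψ ∧ Cx 𝔸 G ψ ∧ (∀ a w, vt P c (ψ w) = vt P c (G a w)) ∧
          ∀ (n : Fin M) (u : Fin (n + 1) → W), StrictMono (fun i => rk (u i)) →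
            N (fun a => ⟨n, pull 𝔹 (fun i => G a (u i))⟩) = ⟨n, pull 𝔹 (fun i => ψ (u i))⟩

/-- the same for tuples in any order, with `lft` -/
def T_LFTR : Prop :=
  ∀ (ρ : Sig) (V : Type) (𝔹 : Str ρ V) (M : ℕ) (A W : Type) (N : (A → Dm ρ M) → Dm ρ M)
    (rk : W → ℕ), Injective rk → ∀ (G : A → W → V) (ψ : W → V),
      (∀ (n : Fin M) (u : Fin (n + 1) → W), StrictMono (fun i => rk (u i)) →
        N (fun a => ⟨n, pull 𝔹 (fun i => G a (u i))⟩) = ⟨n, pull 𝔹 (fun i => ψ (u i))⟩) →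
      ∀ (k : ℕ) (z : Fin k → W), 1 ≤ k → k ≤ M →
        pull 𝔹 (fun i => ψ (z i)) = lft N k (fun a b => rk (z a) < rk (z b))
          (fun a => pull 𝔹 (fun i => G a (z i)))

/-! ### Part T: the types and the template -/

/-- cyclic actions on the types -/
def T_SRTR : Prop :=
  ∀ (σ ρ : Sig) (V S X : Type) [LinearOrder V] (P : Pal S X) (𝔸 : Str σ V) (𝔹 : Str ρ V) (M : ℕ)
    (c : V → V → S ⊕ X), StpR P 𝔸 𝔹 M c → ∀ h, Core2 P 𝔸 𝔹 c h →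
      ∃ N : ℕ, ∀ p : ℕ, p.Prime → N < p → ∃ τ : (ZMod p → S) → S, Sbn P 𝔸 c τ ∧
        ∀ t, τ (fun i => t (i + 1)) = τ t

/-- products of signs -/
def T_PRD : Prop :=
  ∀ (I : Type) [Finite I] (Y : Type), ∃ pn : (m : ℕ) → (I → Sgn Y m) → ((I → Od m) → Y) → Y,
    (∀ (m n : ℕ) (α : Fin n → Fin m) (E : I → Sgn Y m) (φ : (I → Od n) → Y),
      pn n (fun i => rsS α (E i)) φ = pn m E (fun J => φ (fun i => rsO α (J i)))) ∧
    (∀ (m : ℕ) (k : I → Fin m → ℕ) (E : I → Sgn Y m), (∀ i, Sup (k i) (E i)) →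
      ∀ φ φ' : (I → Od m) → Y, (∀ J, (∀ i, LinO (k i) (J i)) → φ J = φ' J) →
        pn m E φ = pn m E φ') ∧
    ∀ (σ : Sig) (𝕋 : Str σ Y) (m : ℕ) (E : I → Sgn Y m), (∀ i, IsPoly 𝕋 𝕋 (E i)) →
      IsPoly 𝕋 𝕋 (pn m E)

/-- from canonical maps to polymorphisms of the template -/
def T_TOFR : Prop :=
  ∀ (σ ρ : Sig) (V S X : Type) [LinearOrder V] [Finite S] (P : Pal S X) (𝔸 : Str σ V)
    (𝔹 : Str ρ V) (M : ℕ) (c : V → V → S ⊕ X), StpR P 𝔸 𝔹 M c → ∀ (I : Type) [Finite I]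
      [Nonempty I] (τ : (I → S) → S) (κ : (I → S) → (I → S) → Set I → Prop)
      (Ψ : (k : ℕ) → (I → OT ρ (Fin k)) → OT ρ (Fin k)), GmR P 𝔸 𝔹 c τ κ Ψ →
      ∃ F, TpR P 𝔸 𝔹 M c τ κ F

/-- the cyclic polymorphism of the template -/
def T_CYPR : Prop :=
  ∀ (σ ρ : Sig) (V S X : Type) [LinearOrder V] [Finite S] (P : Pal S X) (𝔸 : Str σ V)
    (𝔹 : Str ρ V) (M : ℕ) (c : V → V → S ⊕ X), StpR P 𝔸 𝔹 M c → ∀ (p : ℕ)
      (f : (ZMod p → Dm ρ M) → Dm ρ M), p.Prime → IsPoly (tf 𝔸 𝔹 M c) (tf 𝔸 𝔹 M c) f →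
      (∀ x, f (fun i => x (i + 1)) = f x) → ∀ (τ : (ZMod p → S) → S)
        (κ : (ZMod p → S) → (ZMod p → S) → Set (ZMod p) → Prop)
        (F : (ZMod p → El S ρ M) → El S ρ M), TpR P 𝔸 𝔹 M c τ κ F →
        (∀ t, τ (fun i => t (i + 1)) = τ t) →
        (∀ t t' A, κ (fun i => t (i + 1)) (fun i => t' (i + 1)) {i | i + 1 ∈ A} ↔ κ t t' A) →
        ∃ u : (ZMod p → El S ρ M) → El S ρ M, IsPoly (tpR P 𝔸 𝔹 M c) (tpR P 𝔸 𝔹 M c) u ∧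
          ∀ z, u (fun i => z (i + 1)) = u z

/-- correctness of the reduction -/
def T_RE1R : Prop :=
  ∀ (σ ρ : Sig) (V S X : Type) [LinearOrder V] [Finite S] (P : Pal S X) (𝔸 : Str σ V)
    (𝔹 : Str ρ V) (M : ℕ) (c : V → V → S ⊕ X), StpR P 𝔸 𝔹 M c → ∀ (n : ℕ) (𝕏 : Str σ (Fin n)),
      (∃ f, IsHom 𝕏 𝔸 f) ↔ ∃ q : Ps M n → El S ρ M,
        ∀ (s : Option (Fin σ.m)) (y : Fin (arP σ M s) → Fin n), relP 𝕏 M s y →
          FamR P 𝔸 𝔹 M c (tf 𝔸 𝔹 M c) s (fun e => q ⟨e.1, fun i => y (e.2 i)⟩)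

/-- the reduction -/
def T_REDR : Prop :=
  ∀ (σ ρ : Sig) (V S X : Type) [LinearOrder V] [Finite S] (P : Pal S X) (𝔸 : Str σ V)
    (𝔹 : Str ρ V) (M : ℕ) (c : V → V → S ⊕ X), StpR P 𝔸 𝔹 M c →
      N793a5b8e.ManyOneReducible (CSP 𝔸) (CSP (tpR P 𝔸 𝔹 M c))

/-! ### Part A -/

/-- the restriction to a core -/
def T_PAR : Prop :=
  ∀ (σ ρ : Sig) (V : Type) [LinearOrder V] (𝔸 : Str σ V) (𝔹 : Str ρ V) (M : ℕ), Base 𝔸 𝔹 M →
    Oligo 𝔸 → ¬ PPConstructsK3 𝔸 →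
      ∃ (ρ' : Sig) (V' S' X' : Type) (_ : LinearOrder V') (P' : Pal S' X') (𝔸' : Str σ V')
        (𝔹' : Str ρ' V') (M' : ℕ) (c' : V' → V' → S' ⊕ X') (h : Ty ρ' (Fin 6 → V'))
        (h2 : (Fin 6 → V') → (Fin 6 → V') → S' ⊕ X'),
        StpR P' 𝔸' 𝔹' M' c' ∧ CoreR P' 𝔸' 𝔹' c' h h2 ∧ HomEq 𝔸 𝔸'

end Pool.Agent.H57.AR
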