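import Pool.Agent.H57.AR.Targets
import Pool.Agent.H57.EQ.Asm
import Pool.Agent.H53.GR.Asm

/-!
# All reducts, all arities: assembly
-/

set_option autoImplicit false

namespace Pool.Agent.H57.AR

open Pool.Agent.H68.BP Pool.Agent.H58.SF Pool.Agent.H53.NR Pool.Agent.H58.GR
open Pool.Agent.H53.GC (T_OLF arP relP)
open Pool.Agent.H53.GR (Setp GMap TInv tmpl Dm pS Univ T_UNI T_CAN T_MIX T_GOO T_NOSEL T_LIM)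
open Pool.Agent.H57.EQ (Cx T_CYC T_NKC fb_mono T_OLG)
open Pool.Agent.H57.SO (Pal Col vt Exa Sb FBl Sbn Bh fib sigF)
open Function

instance (ρ : Sig) (M : ℕ) : Finite (Dm ρ M) := by
  unfold Dm Str
  infer_instance

instance (Y : Type) [Finite Y] (m : ℕ) : Finite (Sgn Y m) := by
  unfold Sgn Od
  infer_instance

/-- an element of the template as a tuple -/
def ElD.toProd {S : Type} {ρ : Sig} {Y : Type} {j : ℕ} (e : ElD S ρ Y j) :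
    (Fin j → S) × Od j × (Od j → Str ρ (Fin j)) × Sgn Y j := (e.ts, e.kr, e.st, e.sg)

instance (S : Type) (ρ : Sig) (Y : Type) [Finite S] [Finite Y] (j : ℕ) : Finite (ElD S ρ Y j) := by
  have : Finite ((Fin j → S) × Od j × (Od j → Str ρ (Fin j)) × Sgn Y j) := by
    unfold Od Str
    infer_instance
  refine Finite.of_injective ElD.toProd ?_
  rintro ⟨a, b, c, d⟩ ⟨a', b', c', d'⟩ h
  simp only [ElD.toProd, Prod.mk.injEq] at h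
  obtain ⟨rfl, rfl, rfl, rfl⟩ := h
  rfl

instance (S : Type) (ρ : Sig) (M : ℕ) [Finite S] : Finite (El S ρ M) := by
  unfold El
  infer_instance

/-- an Olšák polymorphism of the template of the fibres -/
theorem asm_olsR (hNR3 : Pool.Agent.H53.GR.T_NR3) (hCAN : T_CAN) (hMIX : T_MIX) (hGOO : T_GOO) (hNOS : T_NOSEL)
    (hOLF : T_OLF) (hLIM : T_LIM) (hCPSR : T_CPSR)
    {σ ρ : Sig} {V S X : Type} [LinearOrder V] [Finite S] {P : Pal S X} {𝔸 : Str σ V}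
    {𝔹 : Str ρ V} {M : ℕ} {c : V → V → S ⊕ X} (hs : StpR P 𝔸 𝔹 M c) {H : Str ρ (Fin 6 → V)}
    (hH : GMap (fib 𝔸 M c) 𝔹 M H) : HasOlsak (tf 𝔸 𝔹 M c) (tf 𝔸 𝔹 M c) := by
  have hS := hCPSR σ ρ V S X P 𝔸 𝔹 M c hs
  obtain ⟨H', hH', ht⟩ := hCAN _ ρ V (fib 𝔸 M c) 𝔹 M hS.ar
    (hNR3 ρ V 𝔹 M (fun l => (hS.ar l).1) hS.univ) hS.split H hH
  refine hLIM _ ρ V (fib 𝔸 M c) 𝔹 M hS.pos hS.ne fun k => ?_
  have h1 : Finite (Str ρ (Fin k)) := by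
    unfold Str
    infer_instance
  have h2 : Nonempty (Str ρ (Fin k)) := ⟨fun _ _ => False⟩
  exact hOLF _ _ _ _ (hNOS _ _ _ (pS (fib 𝔸 M c) 𝔹 M k) (hGOO _ ρ V (fib 𝔸 M c) 𝔹 M k)
    (hMIX _ ρ V (fib 𝔸 M c) 𝔹 M H' hS hH' ht k))

/-- cyclic polymorphisms of the template of the fibres -/
theorem asm_cycR
    (hOLS : ∀ (σ ρ : Sig) (V S X : Type) [LinearOrder V] [Finite S] (P : Pal S X) (𝔸 : Str σ V)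
      (𝔹 : Str ρ V) (M : ℕ) (c : V → V → S ⊕ X), StpR P 𝔸 𝔹 M c → ∀ H,
      GMap (fib 𝔸 M c) 𝔹 M H → HasOlsak (tf 𝔸 𝔹 M c) (tf 𝔸 𝔹 M c))
    (hBKSR : T_BKSR) (hBKGR : T_BKGR) (hCYC : T_CYC)
    {σ ρ : Sig} {V S X : Type} [LinearOrder V] [Finite S] {P : Pal S X} {𝔸 : Str σ V}
    {𝔹 : Str ρ V} {M : ℕ} {c : V → V → S ⊕ X} (hs : StpR P 𝔸 𝔹 M c) {h : Ty ρ (Fin 6 → V)}
    {h2 : (Fin 6 → V) → (Fin 6 → V) → S ⊕ X} (hh : CoreR P 𝔸 𝔹 c h h2) :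
    ∃ N : ℕ, ∀ p : ℕ, p.Prime → N < p → ∃ f : (ZMod p → Dm ρ M) → Dm ρ M,
      IsPoly (tf 𝔸 𝔹 M c) (tf 𝔸 𝔹 M c) f ∧ ∀ x, f (fun i => x (i + 1)) = f x := by
  obtain ⟨h', hb⟩ := hBKSR σ ρ V S X P 𝔸 𝔹 M c hs h hh.full hh.exT
  have hO := hOLS σ ρ V S X P 𝔸 𝔹 M c hs _ (hBKGR σ ρ V S X P 𝔸 𝔹 M c hs h h2 h' hh hb)
  exact ⟨Nat.card (Dm ρ M), fun p hp hN => hCYC _ _ _ hO p hp hN⟩

/-- The template of a core does not pp-construct `K₃`. -/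
theorem asm_tplR
    (hCYCR : ∀ (σ ρ : Sig) (V S X : Type) [LinearOrder V] [Finite S] (P : Pal S X) (𝔸 : Str σ V)
      (𝔹 : Str ρ V) (M : ℕ) (c : V → V → S ⊕ X), StpR P 𝔸 𝔹 M c → ∀ h h2,
      CoreR P 𝔸 𝔹 c h h2 → ∃ N : ℕ, ∀ p : ℕ, p.Prime → N < p →
        ∃ f : (ZMod p → Dm ρ M) → Dm ρ M, IsPoly (tf 𝔸 𝔹 M c) (tf 𝔸 𝔹 M c) f ∧
          ∀ x, f (fun i => x (i + 1)) = f x)
    (hSRTR : T_SRTR) (hKERR : T_KERR) (hINLR : T_INLR) (hLCBR : T_LCBR) (hCMBR : T_CMBR)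
    (hBHIR : T_BHIR) (hCYBR : T_CYBR) (hCABR : T_CABR) (hTOFR : T_TOFR) (hCYPR : T_CYPR)
    (hNKC : T_NKC)
    {σ ρ : Sig} {V S X : Type} [LinearOrder V] [Finite S] {P : Pal S X} {𝔸 : Str σ V}
    {𝔹 : Str ρ V} {M : ℕ} {c : V → V → S ⊕ X} (hs : StpR P 𝔸 𝔹 M c) {h : Ty ρ (Fin 6 → V)}
    {h2 : (Fin 6 → V) → (Fin 6 → V) → S ⊕ X} (hh : CoreR P 𝔸 𝔹 c h h2) :
    ¬ PPConstructsK3 (tpR P 𝔸 𝔹 M c) := by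
  obtain ⟨N₁, hN₁⟩ := hCYCR σ ρ V S X P 𝔸 𝔹 M c hs h h2 hh
  obtain ⟨N₂, hN₂⟩ := hSRTR σ ρ V S X P 𝔸 𝔹 M c hs h2 hh.core
  obtain ⟨p, hp1, hp2⟩ := Nat.exists_infinite_primes (N₁ + N₂ + 3)
  obtain ⟨f, hf, hfc⟩ := hN₁ p hp2 (by omega)
  obtain ⟨τ, hτ, hτc⟩ := hN₂ p hp2 (by omega)
  have : NeZero p := ⟨hp2.ne_zero⟩
  obtain ⟨κ, hκ⟩ := hKERR σ ρ V S X P 𝔸 𝔹 M c hs (ZMod p) τ hτ
  have hinj : INJ P 𝔸 c := hCMBR σ ρ V S X P 𝔸 𝔹 M c hs fun s =>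
    hLCBR σ ρ V S X P 𝔸 𝔹 M c hs s (hINLR σ ρ V S X P 𝔸 𝔹 M c hs h2 hh.core s)
  obtain ⟨κ', hκ', hκc⟩ := hCYBR σ V S X P 𝔸 c (hBHIR σ V S X P 𝔸 c hinj) p hp2 τ κ hκ hτc
  obtain ⟨Ψ, hG⟩ := hCABR σ ρ V S X P 𝔸 𝔹 M c hs (ZMod p) τ κ' hκ'
  obtain ⟨F, hF⟩ := hTOFR σ ρ V S X P 𝔸 𝔹 M c hs (ZMod p) τ κ' Ψ hG
  obtain ⟨u, hu1, hu2⟩ := hCYPR σ ρ V S X P 𝔸 𝔹 M c hs p f hp2 hf hfc τ κ' F hF hτc hκc
  exact hNKC _ _ _ p u hp2 hu1 hu2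

/-- The theorem for ordered structures. -/
theorem asm_allR (hPAR : T_PAR) (hREDR : T_REDR)
    (hTPL : ∀ (σ ρ : Sig) (V S X : Type) [LinearOrder V] [Finite S] (P : Pal S X) (𝔸 : Str σ V)
      (𝔹 : Str ρ V) (M : ℕ) (c : V → V → S ⊕ X), StpR P 𝔸 𝔹 M c → ∀ h h2,
      CoreR P 𝔸 𝔹 c h h2 → ¬ PPConstructsK3 (tpR P 𝔸 𝔹 M c))
    {σ ρ : Sig} {V : Type} [LinearOrder V] {𝔸 : Str σ V} {𝔹 : Str ρ V} {M : ℕ}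
    (hs : Base 𝔸 𝔹 M) (hol : Oligo 𝔸) :
    PPConstructsK3 𝔸 ∨ ∃ (σ' : Sig) (Y : Type) (_ : Finite Y) (𝕋 : Str σ' Y),
      ¬ PPConstructsK3 𝕋 ∧ N793a5b8e.ManyOneReducible (CSP 𝔸) (CSP 𝕋) := by
  by_cases hK : PPConstructsK3 𝔸
  · exact Or.inl hK
  obtain ⟨ρ', V', S', X', lo, P', 𝔸', 𝔹', M', c', h, h2, hs', hh', hom⟩ :=
    hPAR σ ρ V 𝔸 𝔹 M hs hol hK
  have := hs'.lnk.finS
  refine Or.inr ⟨_, El S' ρ' M', inferInstance, tpR P' 𝔸' 𝔹' M' c',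
    hTPL σ ρ' V' S' X' P' 𝔸' 𝔹' M' c' hs' h h2 hh', ?_⟩
  have h1 : CSP 𝔸 = CSP 𝔸' := by
    funext w
    unfold CSP
    refine decide_eq_decide.2 ?_
    constructor
    · rintro ⟨n, L, h1, h2, h3⟩
      exact ⟨n, L, h1, h2, (hom n _).1 h3⟩
    · rintro ⟨n, L, h1, h2, h3⟩
      exact ⟨n, L, h1, h2, (hom n _).2 h3⟩
  rw [h1]
  exact hREDR σ ρ' V' S' X' P' 𝔸' 𝔹' M' c' hs'

/-- the structure side -/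
def T_TYIR : Prop :=
  ∀ (τ σ : Sig) (B : Type) [Countable B] (𝔹 : Str τ B) (𝔸 : Str σ B), Homogeneous 𝔹 →
    (∀ g : B ≃ B, IsAut 𝔹 g → IsAut 𝔸 g) →
    ∀ (l : Fin σ.m) (x y : Fin (σ.ar l) → B), 𝔸 l x → tp 𝔹 y = tp 𝔹 x → 𝔸 l y

/-- The theorem for all first-order reducts of structures with free amalgamation. -/
theorem asm_finalR (hFB1 : T_FB1) (hFB2 : T_FB2) (hOLG : T_OLG) (hTYIR : T_TYIR)
    (hmain : ∀ (σ ρ : Sig) (V : Type) [LinearOrder V] (𝔸 : Str σ V) (𝔹 : Str ρ V) (M : ℕ),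
      Base 𝔸 𝔹 M → Oligo 𝔸 →
      PPConstructsK3 𝔸 ∨ ∃ (σ' : Sig) (Y : Type) (_ : Finite Y) (𝕋 : Str σ' Y),
        ¬ PPConstructsK3 𝕋 ∧ N793a5b8e.ManyOneReducible (CSP 𝔸) (CSP 𝕋))
    (τ σ : Sig) (B : Type) [Countable B] [Nonempty B] (𝔹 : Str τ B) (𝔸 : Str σ B)
    (har : ∀ l, 1 ≤ τ.ar l) (hH : Homogeneous 𝔹) (hF : FinitelyBounded 𝔹)
    (hA : FreeAmalgamation 𝔹) (hS : ∀ g : B ≃ B, IsAut 𝔹 g → IsAut 𝔸 g) :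
    PPConstructsK3 𝔸 ∨ ∃ (σ' : Sig) (Y : Type) (_ : Finite Y) (𝕋 : Str σ' Y),
      ¬ PPConstructsK3 𝕋 ∧ N793a5b8e.ManyOneReducible (CSP 𝔸) (CSP 𝕋) := by
  obtain ⟨M₀, hM₀, hFB₀⟩ := hFB1 τ B 𝔹 hF hA
  let M := max (max M₀ 3) (τ.width + 1)
  have hFB : FreelyBounded 𝔹 M := fb_mono hFB₀ (le_trans (le_max_left _ _) (le_max_left _ _))
  have hM : 3 ≤ M := le_trans (le_max_right M₀ 3) (le_max_left _ _)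
  have hw : ∀ l, τ.ar l < M := fun l =>
    lt_of_lt_of_le (Nat.lt_succ_of_le (Finset.le_sup (f := τ.ar) (Finset.mem_univ l)))
      (le_max_right _ _)
  obtain ⟨en, hen⟩ := exists_injective_nat B
  let _ : LinearOrder B := LinearOrder.lift' en hen
  have hU : Univ 𝔹 M := by
    intro n 𝕏 hX
    obtain ⟨f, hf, hm⟩ := hFB2 τ B 𝔹 M en hen hH hFB n 𝕏 (hFB n 𝕏 hX)
    exact ⟨f, fun i j hij => hm hij, hf⟩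
  exact hmain σ τ B 𝔸 𝔹 M
    ⟨inferInstance, inferInstance, hM, fun l => ⟨har l, hw l⟩, hU, hTYIR τ σ B 𝔹 𝔸 hH hS⟩
    (hOLG τ σ B 𝔹 𝔸 inferInstance hH hS)

end Pool.Agent.H57.AR
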