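import Pool.Agent.H57.SO.Defs
import Pool.Agent.H53.GR.Targets

/-!
# All reducts, all arities: definitions

`(V, <, 𝔹)` is a linear order with relations, in which all finite structures are realized whose
irreducible substructures are realized, and `𝔸` is a structure on `V` whose relations depend only on
the quantifier-free types of the tuples in `𝔹` (the order is not used).
-/

set_option autoImplicit false

namespace Pool.Agent.H57.AR

open Pool.Agent.H68.BP Pool.Agent.H58.SF Pool.Agent.H53.GC Pool.Agent.H53.NR Pool.Agent.H53.GR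
open Pool.Agent.H57.SO (Pal Col vt Exa Sb FBl Sbn Bh fib sigF)
open Pool.Agent.H57.EQ (Cx)
open Function

/-! ### Types -/

/-- A quantifier-free type of a tuple indexed by `W`: the equalities and the structure. -/
abbrev Ty (ρ : Sig) (W : Type) : Type := (W → W → Prop) × Str ρ W

/-- A quantifier-free type of a tuple indexed by `W` in an ordered structure: the structure and the
order. -/
abbrev OT (ρ : Sig) (W : Type) : Type := Str ρ W × (W → W → Prop)

section types

variable {V S X Z W I : Type} {σ ρ : Sig}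

/-- the type of the tuple `x` -/
def tp (𝔹 : Str ρ V) (x : W → V) : Ty ρ W := (fun a b => x a = x b, pull 𝔹 x)

/-- the type of the tuple `x`, with the order -/
def tpo [LT V] (𝔹 : Str ρ V) (x : W → V) : OT ρ W := (pull 𝔹 x, fun a b => x a < x b)

/-- the type of the subtuple given by `s` -/
def pullT (t : Ty ρ Z) (s : W → Z) : Ty ρ W := (fun a b => t.1 (s a) (s b), pull t.2 s)

/-- the ordered type of the subtuple given by `s` -/
def pullO (t : OT ρ Z) (s : W → Z) : OT ρ W := (pull t.1 s, fun a b => t.2 (s a) (s b))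

/-- the type of an element -/
def ty (𝔹 : Str ρ V) (x : V) : Fin ρ.m → Prop := fun l => 𝔹 l (fun _ => x)

/-- Each tuple of elements of the tuple `x` which is in a relation consists of at most two elements. -/
def Two (𝔹 : Str ρ V) (x : W → V) : Prop :=
  ∀ (l : Fin ρ.m) (z : Fin (ρ.ar l) → W), 𝔹 l (fun i => x (z i)) →
    ∃ a b, ∀ i, x (z i) = x a ∨ x (z i) = x b

/-- `ψ` is a map from the domain of `G` to the structure `𝔸'` which satisfies all relations of `𝔸`
which hold for `G`. -/
def Hx {V' : Type} (𝔸 : Str σ V) (𝔸' : Str σ V') (G : W → V) (ψ : W → V') : Prop :=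
  ∀ (l : Fin σ.m) (z : Fin (σ.ar l) → W), 𝔸 l (fun a => G (z a)) → 𝔸' l (fun a => ψ (z a))

/-- The same finite structures map homomorphically to `𝔸` and to `𝔸'`. -/
def HomEq {V' : Type} (𝔸 : Str σ V) (𝔸' : Str σ V') : Prop :=
  ∀ (n : ℕ) (𝕏 : Str σ (Fin n)), (∃ f, IsHom 𝕏 𝔸 f) ↔ ∃ f, IsHom 𝕏 𝔸' f

end types

/-! ### The hypotheses -/

/-- the hypotheses on the ordered structure `(V, <, 𝔹)` and on the structure `𝔸` -/
structure Base {V : Type} {σ ρ : Sig} [LinearOrder V] (𝔸 : Str σ V) (𝔹 : Str ρ V) (M : ℕ) :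
    Prop where
  ne : Nonempty V
  cnt : Countable V
  three : 3 ≤ M
  ar : ∀ l, 1 ≤ ρ.ar l ∧ ρ.ar l < M
  univ : Univ 𝔹 M
  tyi : ∀ (l : Fin σ.m) (x y : Fin (σ.ar l) → V), 𝔸 l x → tp 𝔹 y = tp 𝔹 x → 𝔸 l y

/-- `c` is the colouring with the types of elements and pairs of `𝔹`, with the palette `P`. -/
structure Lnk {V S X : Type} {ρ : Sig} (P : Pal S X) (𝔹 : Str ρ V) (c : V → V → S ⊕ X) : Prop where
  finS : Finite S
  finX : Finite X
  col : Col P c
  /-- equal colours are equal types of pairs -/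
  eq : ∀ x y x' y', c x y = c x' y' ↔ ((x = y ↔ x' = y') ∧
    ∀ (l : Fin ρ.m) (f : Fin (ρ.ar l) → Bool), 𝔹 l (fun i => if f i then y else x) ↔
      𝔹 l (fun i => if f i then y' else x'))
  /-- free pairs -/
  free : ∀ x y, x ≠ y → (c x y = Sum.inr (P.fr (vt P c x) (vt P c y)) ↔
    ∀ (l : Fin ρ.m) (f : Fin (ρ.ar l) → Bool), 𝔹 l (fun i => if f i then y else x) →
      (∀ i, f i = true) ∨ ∀ i, f i = false)

/-- the hypotheses, with a colouring of the pairs -/
structure StpR {V S X : Type} {σ ρ : Sig} [LinearOrder V] (P : Pal S X) (𝔸 : Str σ V)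
    (𝔹 : Str ρ V) (M : ℕ) (c : V → V → S ⊕ X) : Prop where
  base : Base 𝔸 𝔹 M
  lnk : Lnk P 𝔹 c

/-! ### Canonical maps -/

section canonical

variable {V S X : Type} {σ ρ : Sig}

/-- `h` gives the types of the tuples of values of a map from the power of `V` to `V` which is
canonical and preserves `𝔸`. -/
structure CanR [LinearOrder V] (𝔸 : Str σ V) (𝔹 : Str ρ V) (I : Type) (h : Ty ρ (I → V)) :
    Prop where
  tinv : ∀ (k : ℕ) (u u' : Fin k → I → V),
    SameTp 𝔹 (fun q : Fin k × I => u q.1 q.2) (fun q => u' q.1 q.2) → pullT h u = pullT h u'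
  comb : ∀ (W : Type) [Finite W] (G : I → W → V), ∃ ψ : W → V, Cx 𝔸 G ψ ∧
    tp 𝔹 ψ = pullT h (fun w i => G i w)

/-- the identities of an Olšák function -/
def ExaT (h : Ty ρ (Fin 6 → V)) : Prop :=
  ∀ r : Fin 3, pullT h (fun p : V × V => pat r p.1 p.2) = pullT h (fun p : V × V => pat 0 p.1 p.2)

/-- The same for the colours of pairs of values. -/
structure Can2 [LinearOrder V] (𝔸 : Str σ V) (𝔹 : Str ρ V) (c : V → V → S ⊕ X) (I : Type)
    (h : (I → V) → (I → V) → S ⊕ X) : Prop where
  tinv : ∀ v w v' w' : I → V, SameTp 𝔹 (Sum.elim v w) (Sum.elim v' w') → h v w = h v' w'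
  comb : ∀ (W : Type) [Finite W] (G : I → W → V), ∃ ψ : W → V, Cx 𝔸 G ψ ∧
    ∀ u w, c (ψ u) (ψ w) = h (fun i => G i u) (fun i => G i w)

/-- The hypotheses on the canonical Olšák function (colours of pairs of values), see
`Pool.Agent.H57.SO.Core`; the blocks have no relations between more than two elements. -/
structure Core2 [LinearOrder V] (P : Pal S X) (𝔸 : Str σ V) (𝔹 : Str ρ V) (c : V → V → S ⊕ X)
    (h : (Fin 6 → V) → (Fin 6 → V) → S ⊕ X) : Prop where
  can : Can2 𝔸 𝔹 c (Fin 6) h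
  exact : Exa h
  perm : ∀ γ : S → S, Sb 𝔸 c γ → Bijective γ
  idem : ∀ (s : S) (z : Fin 6 → V), FBl P c s z → Two 𝔹 z → h z z = Sum.inl s
  ncol : ∀ (s : S) (z z' : Fin 6 → V), FBl P c s z → FBl P c s z' → Two 𝔹 (Sum.elim z z') →
    (∀ l l', z l ≠ z' l') → ∀ s', h z z' ≠ Sum.inl s'

/-- The hypotheses on the canonical Olšák function, with the types of all tuples of values. -/
structure CoreR [LinearOrder V] (P : Pal S X) (𝔸 : Str σ V) (𝔹 : Str ρ V) (c : V → V → S ⊕ X)
    (h : Ty ρ (Fin 6 → V)) (h2 : (Fin 6 → V) → (Fin 6 → V) → S ⊕ X) : Prop where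
  full : CanR 𝔸 𝔹 (Fin 6) h
  exT : ExaT h
  core : Core2 P 𝔸 𝔹 c h2
  link : ∀ (v w : Fin 6 → V) (x y : V), tp 𝔹 ![x, y] = pullT h ![v, w] → c x y = h2 v w

/-- There are `I`-ary maps preserving `𝔸` whose action on the types of elements is `τ`, whose
equalities are given by `κ`, and which are canonical: the ordered types of tuples of values are given
by `Ψ`, from the ordered types of the tuples of arguments in all coordinates. -/
def GmR [LinearOrder V] (P : Pal S X) (𝔸 : Str σ V) (𝔹 : Str ρ V) (c : V → V → S ⊕ X) {I : Type}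
    (τ : (I → S) → S) (κ : (I → S) → (I → S) → Set I → Prop)
    (Ψ : (k : ℕ) → (I → OT ρ (Fin k)) → OT ρ (Fin k)) : Prop :=
  ∀ (W : Type) [Finite W] (G : I → W → V), ∃ ψ : W → V, Cx 𝔸 G ψ ∧
    (∀ w, vt P c (ψ w) = τ (fun i => vt P c (G i w))) ∧
    (∀ u w, ψ u = ψ w ↔ κ (fun i => vt P c (G i u)) (fun i => vt P c (G i w))
      {i | G i u = G i w}) ∧
    ∀ (k : ℕ) (z : Fin k → W), tpo 𝔹 (fun a => ψ (z a)) = Ψ k (fun i => tpo 𝔹 (fun a => G i (z a)))

end canonical

/-! ### The template -/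

section template

variable {V S X : Type} {σ ρ : Sig}

/-- the (order) relations on the places -/
abbrev Od (m : ℕ) : Type := Fin m → Fin m → Prop

/-- the order of the ranks `rk` -/
def ord {m : ℕ} (rk : Fin m → ℕ) : Od m := fun a b => rk a < rk b

/-- `o` is a linear order on the classes given by `k` -/
def LinO {m : ℕ} (k : Fin m → ℕ) (o : Od m) : Prop :=
  ∃ rk : Fin m → ℕ, (∀ a b, rk a = rk b ↔ k a = k b) ∧ o = ord rk

/-- the restriction of a relation to the places `α` -/
def rsO {m n : ℕ} (α : Fin n → Fin m) (o : Od m) : Od n := fun a b => o (α a) (α b)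

/-- The signs: operations whose arguments are indexed by the relations on the places. -/
abbrev Sgn (Y : Type) (m : ℕ) : Type := (Od m → Y) → Y

/-- the restriction of a sign to the places `α` -/
def rsS {Y : Type} {m n : ℕ} (α : Fin n → Fin m) (E : Sgn Y m) : Sgn Y n :=
  fun φ => E (fun o => φ (rsO α o))

/-- `E` depends only on the arguments indexed by the linear orders on the classes given by `k`. -/
def Sup {Y : Type} {m : ℕ} (k : Fin m → ℕ) (E : Sgn Y m) : Prop :=
  ∀ φ φ' : Od m → Y, (∀ o, LinO k o → φ o = φ' o) → E φ = E φ'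

/-- The elements of the template for tuples of length `j`: the types of the elements, the
equalities, the structure for each order of the classes, and the sign. -/
structure ElD (S : Type) (ρ : Sig) (Y : Type) (j : ℕ) : Type where
  ts : Fin j → S
  kr : Od j
  st : Od j → Str ρ (Fin j)
  sg : Sgn Y j

/-- The elements of the template. -/
abbrev El (S : Type) (ρ : Sig) (M : ℕ) : Type := Σ j : Fin M, ElD S ρ (Dm ρ M) (j + 1)

/-- `q` is the pattern of a family of tuples in the relation `s` of `𝔸` (or of arbitrary tuples of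
length `M`), indexed by the linear orders on the classes of equal entries. -/
def FamR (P : Pal S X) (𝔸 : Str σ V) (𝔹 : Str ρ V) (M : ℕ) (c : V → V → S ⊕ X) {θ : Sig}
    (𝕋 : Str θ (Dm ρ M)) (s : Option (Fin σ.m)) (q : Ps M (arP σ M s) → El S ρ M) : Prop :=
  ∃ (k : Fin (arP σ M s) → ℕ) (E : Sgn (Dm ρ M) (arP σ M s)) (t : Fin (arP σ M s) → S)
    (st : (j : Fin M) → (Fin (j + 1) → Fin (arP σ M s)) → Od (j + 1) → Str ρ (Fin (j + 1))),
    IsPoly 𝕋 𝕋 E ∧ Sup k E ∧
    (∀ (j : Fin M) (α : Fin (j + 1) → Fin (arP σ M s)),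
      q ⟨j, α⟩ = ⟨j, ⟨fun a => t (α a), fun a b => k (α a) = k (α b), st j α, rsS α E⟩⟩) ∧
    ∀ rk : Fin (arP σ M s) → ℕ, (∀ a b, rk a = rk b ↔ k a = k b) →
      ∃ x : Fin (arP σ M s) → V, relP 𝔸 M s x ∧ (∀ a b, x a = x b ↔ k a = k b) ∧
        (∀ a, vt P c (x a) = t a) ∧
        ∀ (j : Fin M) (α : Fin (j + 1) → Fin (arP σ M s)),
          pull 𝔹 (fun a => x (α a)) = st j α (ord (fun a => rk (α a)))

/-- The finite template of the injective part. -/
noncomputable def tf [Finite S] (𝔸 : Str σ V) (𝔹 : Str ρ V) (M : ℕ) (c : V → V → S ⊕ X) :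
    Str (sigOf (Sym (sigF S σ M) M) (fun s => Ps M (arP (sigF S σ M) M s.1))) (Dm ρ M) :=
  tmpl (fib 𝔸 M c) 𝔹 M

/-- The finite template. -/
noncomputable def tpR [Finite S] (P : Pal S X) (𝔸 : Str σ V) (𝔹 : Str ρ V) (M : ℕ)
    (c : V → V → S ⊕ X) :
    Str (sigOf (Option (Fin σ.m)) (fun s => Ps M (arP σ M s))) (El S ρ M) :=
  strOn (FamR P 𝔸 𝔹 M c (tf 𝔸 𝔹 M c))

/-- `F` is a polymorphism of the template with the action on types `τ` and the equalities `κ`. -/
structure TpR [Finite S] {I : Type} (P : Pal S X) (𝔸 : Str σ V) (𝔹 : Str ρ V) (M : ℕ)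
    (c : V → V → S ⊕ X) (τ : (I → S) → S) (κ : (I → S) → (I → S) → Set I → Prop)
    (F : (I → El S ρ M) → El S ρ M) : Prop where
  poly : IsPoly (tpR P 𝔸 𝔹 M c) (tpR P 𝔸 𝔹 M c) F
  form : ∀ (j : Fin M) (d : I → ElD S ρ (Dm ρ M) (j + 1)), ∃ e : ElD S ρ (Dm ρ M) (j + 1),
    F (fun i => ⟨j, d i⟩) = ⟨j, e⟩ ∧ (∀ a, e.ts a = τ (fun i => (d i).ts a)) ∧
    ∀ a b, e.kr a b ↔ κ (fun i => (d i).ts a) (fun i => (d i).ts b) {i | (d i).kr a b}

end template

/-! ### Combination along an order -/

section lift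

variable {ρ : Sig}

/-- the structure part of an element of the template of the injective part, if it has the length
`n + 1` -/
noncomputable def val {M : ℕ} (n : Fin M) (y : Dm ρ M) : Str ρ (Fin (n + 1)) :=
  open Classical in if h : y.1 = n then h ▸ y.2 else fun _ _ => False

/-- The order `o` on the classes of places is given by the map `r` onto `Fin (n + 1)`, with the
representatives `e`. -/
structure Enm {M k : ℕ} (o : Od k) (x : Σ n : Fin M, (Fin (n + 1) → Fin k) × (Fin k → Fin (n + 1))) :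
    Prop where
  ord : ∀ a b, o a b ↔ x.2.2 a < x.2.2 b
  rep : ∀ i, x.2.2 (x.2.1 i) = i

/-- Combination of structures along the order `o` by the operation `N` on the domain of the template
of the injective part. -/
noncomputable def lft {A : Type} {M : ℕ} (N : (A → Dm ρ M) → Dm ρ M) (k : ℕ) (o : Od k)
    (T : A → Str ρ (Fin k)) : Str ρ (Fin k) :=
  open Classical in
  if h : ∃ x : (Σ n : Fin M, (Fin (n + 1) → Fin k) × (Fin k → Fin (n + 1))), Enm o x then
    pull (val h.choose.1 (N fun a => ⟨h.choose.1, pull (T a) h.choose.2.1⟩)) h.choose.2.2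
  else fun _ _ => False

end lift

end Pool.Agent.H57.AR
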