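import Pool.Agent.H57.AR.Targets
import Pool.Agent.H68.GC.OLF0

/-!
# All arities: from canonical maps to polymorphisms of the template
-/

set_option autoImplicit false
set_option linter.unusedVariables false

namespace Pool.Agent.H57.AR

open Pool.Agent.H68.BP Pool.Agent.H58.SF Pool.Agent.H53.GC Pool.Agent.H53.NR Pool.Agent.H53.GR
open Pool.Agent.H57.SO (Pal Col vt Exa Sb FBl Sbn Bh fib sigF)
open Pool.Agent.H57.EQ (Cx)
open Function

section basic

variable {V S X : Type} {σ ρ : Sig} {P : Pal S X} {𝔸 : Str σ V} {𝔹 : Str ρ V} {M : ℕ}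
  {c : V → V → S ⊕ X}

/-- equal types give equal colours -/
theorem Lnk.c_of_tp (hL : Lnk P 𝔹 c) {W : Type} {x y : W → V} (h : tp 𝔹 x = tp 𝔹 y) (a b : W) :
    c (x a) (x b) = c (y a) (y b) := by
  rw [hL.eq]
  refine ⟨?_, fun l f => ?_⟩
  · have h1 := congrFun (congrFun (congrArg Prod.fst h) a) b
    exact iff_of_eq h1
  · have h1 := congrFun (congrFun (congrArg Prod.snd h) l) (fun i => if f i then b else a)
    have h2 : (𝔹 l (fun i => x (if f i then b else a))) =
      𝔹 l (fun i => y (if f i then b else a)) := h1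
    have h3 : ∀ u : W → V, (fun i => u (if f i then b else a)) =
        fun i => if f i then u b else u a := by
      intro u
      funext i
      split_ifs <;> rfl
    rw [h3, h3] at h2
    exact iff_of_eq h2

theorem Lnk.vt_of_tp (hL : Lnk P 𝔹 c) {W : Type} {x y : W → V} (h : tp 𝔹 x = tp 𝔹 y) (a : W) :
    vt P c (x a) = vt P c (y a) := by
  unfold vt
  rw [hL.c_of_tp h a a]

theorem Base.relP_tp [LinearOrder V] (hB : Base 𝔸 𝔹 M) (s : Option (Fin σ.m))
    {x y : Fin (arP σ M s) → V} (hx : relP 𝔸 M s x) (h : tp 𝔹 y = tp 𝔹 x) : relP 𝔸 M s y := by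
  cases s with
  | none => trivial
  | some l => exact hB.tyi l x y hx h

/-- combinations with the same arguments -/
theorem lft_congr {A A' : Type} {N : (A → Dm ρ M) → Dm ρ M} {N' : (A' → Dm ρ M) → Dm ρ M} {k : ℕ}
    (o : Od k) {T : A → Str ρ (Fin k)} {T' : A' → Str ρ (Fin k)}
    (h : ∀ (n : Fin M) (e : Fin (n + 1) → Fin k),
      N (fun a => ⟨n, pull (T a) e⟩) = N' (fun a => ⟨n, pull (T' a) e⟩)) :
    lft N k o T = lft N' k o T' := by
  unfold lft
  split_ifs with h1
  · rw [h]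
  · rfl

end basic

section construction

variable {S : Type} {ρ : Sig} {I : Type} {M : ℕ}

/-- the value at elements of the same length -/
noncomputable def Fd
    (pn : (m : ℕ) → (I → Sgn (Dm ρ M) m) → ((I → Od m) → Dm ρ M) → Dm ρ M)
    (τ : (I → S) → S) (κ : (I → S) → (I → S) → Set I → Prop)
    (Ψ : (k : ℕ) → (I → OT ρ (Fin k)) → OT ρ (Fin k)) (j : Fin M)
    (d : I → ElD S ρ (Dm ρ M) (j + 1)) : ElD S ρ (Dm ρ M) (j + 1) where
  ts a := τ (fun i => (d i).ts a)
  kr a b := κ (fun i => (d i).ts a) (fun i => (d i).ts b) {i | (d i).kr a b}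
  st o := lft (pn (j + 1) (fun i => (d i).sg)) (j + 1) o
    (fun J => (Ψ (j + 1) (fun i => ((d i).st (J i), J i))).1)
  sg φ := pn (j + 1) (fun i => (d i).sg) (fun J => φ (Ψ (j + 1) (fun i => ((d i).st (J i), J i))).2)

open Classical in
/-- the polymorphism -/
noncomputable def Ff [Nonempty I]
    (pn : (m : ℕ) → (I → Sgn (Dm ρ M) m) → ((I → Od m) → Dm ρ M) → Dm ρ M)
    (τ : (I → S) → S) (κ : (I → S) → (I → S) → Set I → Prop)
    (Ψ : (k : ℕ) → (I → OT ρ (Fin k)) → OT ρ (Fin k)) (z : I → El S ρ M) : El S ρ M :=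
  if h : ∃ x : (Σ j : Fin M, I → ElD S ρ (Dm ρ M) (j + 1)), z = fun i => ⟨x.1, x.2 i⟩ then
    ⟨h.choose.1, Fd pn τ κ Ψ h.choose.1 h.choose.2⟩
  else z (Classical.arbitrary I)

theorem Ff_mk [Nonempty I]
    (pn : (m : ℕ) → (I → Sgn (Dm ρ M) m) → ((I → Od m) → Dm ρ M) → Dm ρ M)
    (τ : (I → S) → S) (κ : (I → S) → (I → S) → Set I → Prop)
    (Ψ : (k : ℕ) → (I → OT ρ (Fin k)) → OT ρ (Fin k)) (j : Fin M)
    (d : I → ElD S ρ (Dm ρ M) (j + 1)) :
    Ff pn τ κ Ψ (fun i => ⟨j, d i⟩) = ⟨j, Fd pn τ κ Ψ j d⟩ := by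
  have h : ∃ x : (Σ j : Fin M, I → ElD S ρ (Dm ρ M) (j + 1)),
      (fun i => (⟨j, d i⟩ : El S ρ M)) = fun i => ⟨x.1, x.2 i⟩ := ⟨⟨j, d⟩, rfl⟩
  have h1 : Ff pn τ κ Ψ (fun i => ⟨j, d i⟩) = ⟨h.choose.1, Fd pn τ κ Ψ h.choose.1 h.choose.2⟩ :=
    dif_pos h
  have h2 : h.choose = ⟨j, d⟩ := by
    have h3 := h.choose_spec
    generalize h.choose = x at h3
    obtain ⟨j', d'⟩ := x
    have hj : j = j' := congrArg Sigma.fst (congrFun h3 (Classical.arbitrary I))
    subst hj
    have hd : d = d' := by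
      funext i
      have h4 := congrFun h3 i
      simp only [Sigma.mk.injEq, heq_eq_eq, true_and] at h4
      exact h4
    rw [hd]
  rw [h1, h2]

end construction

theorem pf_TOFR (hPRD : T_PRD) (hDDXR : T_DDXR) (hLFTR : T_LFTR) (hORDR : T_ORDR) : T_TOFR := by
  classical
  intro σ ρ V S X _ _ P 𝔸 𝔹 M c hs I _ _ τ κ Ψ hG
  have hB := hs.base
  have hL := hs.lnk
  obtain ⟨pn, hpn1, hpn2, hpn3⟩ := hPRD I (Dm ρ M)
  refine ⟨Ff pn τ κ Ψ, ?_, fun j d => ⟨Fd pn τ κ Ψ j d, Ff_mk pn τ κ Ψ j d, fun a => rfl,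
    fun a b => Iff.rfl⟩⟩
  refine (Pool.Agent.H68.GC.poly_strOn _ _ _).2 fun s q hqq => ?_
  obtain ⟨m, hm⟩ : ∃ m, m = arP σ M s := ⟨_, rfl⟩
  choose k E t st hE hSup hq hmem using hqq
  -- the members
  have hy : ∀ (i : I) (o : Od (arP σ M s)), ∃ x : Fin (arP σ M s) → V, relP 𝔸 M s x ∧
      (∀ a b, x a = x b ↔ k i a = k i b) ∧ (∀ a, vt P c (x a) = t i a) ∧
      (LinO (k i) o → (∀ (j : Fin M) (α : Fin (j + 1) → Fin (arP σ M s)),
        pull 𝔹 (fun a => x (α a)) = st i j α (rsO α o)) ∧ ∀ a b, x a < x b ↔ o a b) := by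
    intro i o
    by_cases ho : LinO (k i) o
    · obtain ⟨rk, hrk, rfl⟩ := ho
      obtain ⟨x, h1, h2, h3, h4⟩ := hmem i rk hrk
      obtain ⟨x', h5, h6⟩ := hORDR σ ρ V S X P 𝔸 𝔹 M c hs _ x rk
        (fun a b => (hrk a b).trans (h2 a b).symm)
      refine ⟨x', hB.relP_tp s h1 h5, fun a b => ?_, fun a => ?_, fun _ => ⟨fun j α => ?_,
        fun a b => h6 a b⟩⟩
      · rw [← h2 a b]
        exact iff_of_eq (congrFun (congrFun (congrArg Prod.fst h5) a) b)
      · rw [← h3 a]
        exact hL.vt_of_tp h5 a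
      · have h7 : pull 𝔹 x' = pull 𝔹 x := congrArg Prod.snd h5
        have h8 : pull 𝔹 (fun a => x' (α a)) = pull (pull 𝔹 x') α := rfl
        rw [h8, h7]
        exact h4 j α
    · obtain ⟨x, h1, h2, h3, h4⟩ := hmem i (k i) (fun a b => Iff.rfl)
      exact ⟨x, h1, h2, h3, fun h => absurd h ho⟩
  choose y hy1 hy2 hy3 hy4 using hy
  have hψ := fun J : I → Od (arP σ M s) => hG (Fin (arP σ M s)) (fun i => y i (J i))
  choose ψ hψ1 hψ2 hψ3 hψ4 using hψ
  let J₀ : I → Od (arP σ M s) := fun i => ord (k i)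
  have := hB.cnt
  obtain ⟨code, hcode⟩ := exists_injective_nat V
  let k' : Fin (arP σ M s) → ℕ := fun a => code (ψ J₀ a)
  have hκ : ∀ J a b, ψ J a = ψ J b ↔ κ (fun i => t i a) (fun i => t i b) {i | k i a = k i b} := by
    intro J a b
    rw [hψ3 J a b]
    have h1 : ∀ a, (fun i => vt P c (y i (J i) a)) = fun i => t i a := fun a =>
      funext fun i => hy3 i (J i) a
    have h2 : {i | y i (J i) a = y i (J i) b} = {i | k i a = k i b} :=
      Set.ext fun i => hy2 i (J i) a b
    rw [h1, h1, h2]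
  have hk' : ∀ J a b, ψ J a = ψ J b ↔ k' a = k' b := by
    intro J a b
    rw [hκ J a b, ← hκ J₀ a b]
    exact ⟨fun h => congrArg code h, fun h => hcode h⟩
  have hty : ∀ J a, vt P c (ψ J a) = τ (fun i => t i a) := by
    intro J a
    rw [hψ2 J a]
    exact congrArg τ (funext fun i => hy3 i (J i) a)
  -- the canonical values
  have hkey : ∀ J : I → Od (arP σ M s), (∀ i, LinO (k i) (J i)) → ∀ (j : Fin M)
      (α : Fin (j + 1) → Fin (arP σ M s)),
      Ψ (j + 1) (fun i => (st i j α (rsO α (J i)), rsO α (J i))) =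
        tpo 𝔹 (fun a => ψ J (α a)) := by
    intro J hJ j α
    rw [hψ4 J (j + 1) α]
    congr 1
    funext i
    obtain ⟨h1, h2⟩ := hy4 i (J i) (hJ i)
    refine Prod.ext (h1 j α).symm ?_
    funext a b
    exact propext (h2 (α a) (α b)).symm
  -- the sign
  let E' : Sgn (Dm ρ M) (arP σ M s) := fun φ => pn _ E (fun J => φ (fun a b => ψ J a < ψ J b))
  refine ⟨k', E', fun a => τ (fun i => t i a), fun j α o =>
    lft (pn (j + 1) (fun i => rsS α (E i))) (j + 1) o
      (fun J => (Ψ (j + 1) (fun i => (st i j α (J i), J i))).1), ?_, ?_, ?_, ?_⟩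
  · -- the sign is a polymorphism
    intro l x hx
    exact hpn3 _ _ _ E hE l (fun J => x (fun a b => ψ J a < ψ J b)) (fun J => hx _)
  · -- support
    intro φ φ' h
    show pn _ E (fun J => φ (fun a b => ψ J a < ψ J b)) =
      pn _ E (fun J => φ' (fun a b => ψ J a < ψ J b))
    congr 1
    funext J
    apply h
    have hfin : (Set.range (ψ J)).Finite := Set.finite_range _
    obtain ⟨r, hr⟩ : ∃ r : V → ℕ, ∀ a b, r (ψ J a) < r (ψ J b) ↔ ψ J a < ψ J b := by
      refine ⟨fun v => (hfin.toFinset.filter (fun w => w < v)).card, fun a b => ?_⟩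
      constructor
      · intro h1
        by_contra h2
        refine absurd h1 (not_lt.2 (Finset.card_le_card ?_))
        intro w hw
        rw [Finset.mem_filter] at hw ⊢
        exact ⟨hw.1, lt_of_lt_of_le hw.2 (not_lt.1 h2)⟩
      · intro h1
        apply Finset.card_lt_card
        rw [Finset.ssubset_iff_of_subset]
        · refine ⟨ψ J a, ?_, ?_⟩
          · rw [Finset.mem_filter, Set.Finite.mem_toFinset]
            exact ⟨⟨a, rfl⟩, h1⟩
          · rw [Finset.mem_filter]
            exact fun h2 => lt_irrefl _ h2.2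
        · intro w hw
          rw [Finset.mem_filter] at hw ⊢
          exact ⟨hw.1, hw.2.trans h1⟩
    refine ⟨fun a => r (ψ J a), fun a b => ?_, ?_⟩
    · rw [← hk' J a b]
      constructor
      · intro h1
        by_contra h2
        rcases lt_or_gt_of_ne h2 with h3 | h3
        · exact ((hr a b).2 h3).ne h1
        · exact ((hr b a).2 h3).ne' h1
      · intro h1
        show r (ψ J a) = r (ψ J b)
        rw [h1]
    · funext a b
      exact propext (hr a b).symm
  · -- the positions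
    intro j α
    show Ff pn τ κ Ψ (fun i => q i ⟨j, α⟩) = _
    have h1 : (fun i => q i ⟨j, α⟩) = fun i => (⟨j, ⟨fun a => t i (α a),
        fun a b => k i (α a) = k i (α b), st i j α, rsS α (E i)⟩⟩ : El S ρ M) :=
      funext fun i => hq i j α
    rw [h1, Ff_mk]
    congr 1
    unfold Fd
    congr 1
    · funext a b
      apply propext
      show κ (fun i => t i (α a)) (fun i => t i (α b)) {i | k i (α a) = k i (α b)} ↔ _
      rw [← hκ J₀, hk']
    · funext φ
      show pn (j + 1) (fun i => rsS α (E i))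
        (fun J => φ (Ψ (j + 1) (fun i => (st i j α (J i), J i))).2) =
        pn _ E (fun J => φ (rsO α (fun a b => ψ J a < ψ J b)))
      rw [hpn1 _ _ α E (fun J => φ (Ψ (j + 1) (fun i => (st i j α (J i), J i))).2)]
      refine hpn2 _ k E hSup _ _ fun J hJ => ?_
      show φ (Ψ (j + 1) (fun i => (st i j α (rsO α (J i)), rsO α (J i)))).2 = _
      rw [hkey J hJ j α]
      rfl
  · -- the members
    intro rk hrk
    let W : Type := Set.range k'
    have : Finite W := Set.finite_range k'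
    let cls : Fin (arP σ M s) → W := fun a => ⟨k' a, a, rfl⟩
    have hrep : ∀ w : W, ∃ a, k' a = w.1 := fun w => w.2
    choose rep hrep using hrep
    have hrc : ∀ a, k' (rep (cls a)) = k' a := fun a => hrep (cls a)
    have hrkrep : ∀ a, rk (rep (cls a)) = rk a := fun a => (hrk _ _).2 (hrc a)
    have hψrep : ∀ J a, ψ J (rep (cls a)) = ψ J a := fun J a => (hk' J _ _).2 (hrc a)
    have hrkW : Injective (fun w : W => rk (rep w)) := by
      intro w w' h
      have h1 := (hrk _ _).1 h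
      rw [hrep, hrep] at h1
      exact Subtype.ext h1
    obtain ⟨ψ', h1, h2, h3, h4⟩ := hDDXR σ ρ V S X P 𝔸 𝔹 M c hs (I → Od (arP σ M s))
      (pn _ E) (hpn3 _ _ _ E hE) W (fun w => rk (rep w)) hrkW (fun J w => ψ J (rep w))
      (by
        intro J w w' h
        have h1 := (hk' J _ _).1 h
        rw [hrep, hrep] at h1
        exact Subtype.ext h1)
      (by
        intro J J' w
        rw [hty, hty])
    have h5 := hLFTR ρ V 𝔹 M (I → Od (arP σ M s)) W (pn _ E) (fun w => rk (rep w)) hrkW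
      (fun J w => ψ J (rep w)) ψ' h4
    refine ⟨fun a => ψ' (cls a), ?_, fun a b => ?_, fun a => ?_, fun j α => ?_⟩
    · cases s with
      | none => trivial
      | some l =>
        refine h2 l cls fun J => ?_
        have h6 : (fun a => ψ J (rep (cls a))) = ψ J := funext fun a => hψrep J a
        have h7 : 𝔸 l (ψ J) := hψ1 J l id fun i => hy1 i (J i)
        exact Eq.mpr (congrArg (fun x => 𝔸 l x) h6) h7
    · constructor
      · intro h6
        exact congrArg Subtype.val (h1 h6)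
      · intro h6
        have h7 : cls a = cls b := Subtype.ext h6
        show ψ' (cls a) = ψ' (cls b)
        rw [h7]
    · show vt P c (ψ' (cls a)) = _
      rw [h3 J₀ (cls a), hψrep J₀ a, hty]
    · have h6 := h5 (j + 1) (fun a => cls (α a)) (by omega) (by have := j.2; omega)
      show pull 𝔹 (fun a => ψ' (cls (α a))) = _
      rw [h6]
      have h7 : (fun a b => rk (rep (cls (α a))) < rk (rep (cls (α b)))) =
          ord (fun a => rk (α a)) := by
        funext a b
        rw [hrkrep, hrkrep]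
        rfl
      have h8 : (fun J => pull 𝔹 (fun a => ψ J (rep (cls (α a))))) =
          fun J => pull 𝔹 (fun a => ψ J (α a)) := by
        funext J
        simp only [hψrep]
      rw [h7, h8]
      refine lft_congr _ fun n e => ?_
      rw [hpn1 _ _ α E (fun J => ⟨n, pull (Ψ (j + 1) (fun i => (st i j α (J i), J i))).1 e⟩)]
      refine hpn2 _ k E hSup _ _ fun J hJ => ?_
      show (⟨n, pull (pull 𝔹 (fun a => ψ J (α a))) e⟩ : Dm ρ M) =
        ⟨n, pull (Ψ (j + 1) (fun i => (st i j α (rsO α (J i)), rsO α (J i)))).1 e⟩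
      rw [hkey J hJ j α]
      rfl

end Pool.Agent.H57.AR
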