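import Pool.Agent.H57.AR.Targets
import Pool.Agent.H95.GR.POW

/-!
# All arities: canonization of families of relations
-/

set_option autoImplicit false
set_option linter.unusedVariables false

namespace Pool.Agent.H57.AR

open Pool.Agent.H68.BP Pool.Agent.H58.SF Pool.Agent.H53.GC Pool.Agent.H53.NR Pool.Agent.H53.GR
open Pool.Agent.H53.RG (ulim ulim_spec cone cone_mem)
open Function

theorem gcn_sameTp_comp {V W W' : Type} [LinearOrder V] {τ : Sig} {𝔹 : Str τ V} {x y : W → V}
    (h : SameTp 𝔹 x y) (φ : W' → W) : SameTp 𝔹 (fun w => x (φ w)) (fun w => y (φ w)) := by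
  refine ⟨fun i j => h.1 _ _, ?_⟩
  have h2 := h.2
  funext l z
  exact congrFun (congrFun h2 l) (fun i => φ (z i))

theorem pf_GCN : T_GCN := by
  classical
  intro ρ V _ 𝔹 hR I Λ _ _ a F
  have hΛ := Fintype.ofFinite Λ
  let N : ℕ := ∑ l, a l
  have hN : ∀ l, a l ≤ N := fun l => Finset.single_le_sum (fun _ _ => Nat.zero_le _)
    (Finset.mem_univ l)
  obtain ⟨n, ⟨e⟩⟩ := Finite.exists_equiv_fin (Fin N × I)
  obtain ⟨k, ⟨f⟩⟩ := Finite.exists_equiv_fin (Λ → Prop)
  have key : ∀ K : Finset V, ∃ g : V → V, (∀ x ∈ K, ∀ y ∈ K, x < y → g x < g y) ∧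
      (∀ (l : Fin ρ.m) (z : Fin (ρ.ar l) → V), (∀ i, z i ∈ K) →
        (𝔹 l (fun i => g (z i)) ↔ 𝔹 l z)) ∧
      ∀ (l : Λ) (u u' : Fin (a l) → I → V), (∀ b i, u b i ∈ K) → (∀ b i, u' b i ∈ K) →
        SameTp 𝔹 (fun q : Fin (a l) × I => u q.1 q.2) (fun q => u' q.1 q.2) →
        (F l (fun b i => g (u b i)) ↔ F l (fun b i => g (u' b i))) := by
    intro K
    obtain ⟨g, h1, h2, h3⟩ := hR n k K (fun z => f (fun l =>
      F l (fun b i => z (e (Fin.castLE (hN l) b, i)))))
    refine ⟨g, h1, h2, fun l u u' hu hu' hT => ?_⟩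
    rcases Nat.eq_zero_or_pos (a l) with h0 | h0
    · have hu0 : (fun b i => g (u b i)) = fun b i => g (u' b i) := by
        funext b
        exact absurd b.2 (by omega)
      rw [hu0]
    · let φ : Fin n → Fin (a l) × I := fun q =>
        (if h : ((e.symm q).1 : ℕ) < a l then ⟨(e.symm q).1, h⟩ else ⟨0, h0⟩, (e.symm q).2)
      have h4 := h3 (fun q => u (φ q).1 (φ q).2) (fun q => u' (φ q).1 (φ q).2)
        (fun q => hu _ _) (fun q => hu' _ _) (gcn_sameTp_comp hT φ)
      have h5 := congrFun (f.injective h4) l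
      have h6 : ∀ (b : Fin (a l)) (i : I), φ (e (Fin.castLE (hN l) b, i)) = (b, i) := by
        intro b i
        simp only [φ, Equiv.symm_apply_apply, Fin.val_castLE]
        rw [dif_pos b.2]
      simp only [h6] at h5
      exact iff_of_eq h5
  choose g hg hb hT using key
  have hu : ∀ (l : Λ) (u : Fin (a l) → I → V),
      ∀ᶠ K in ((cone V : Ultrafilter (Finset V)) : Filter (Finset V)),
      F l (fun b i => g K (u b i)) = ulim (cone V) (fun K => F l (fun b i => g K (u b i))) :=
    fun l u => ulim_spec _ _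
  have hF : ∀ {m : ℕ} (v : Fin m → I → V),
      ∀ᶠ K in ((cone V : Ultrafilter (Finset V)) : Filter (Finset V)), ∀ b i, v b i ∈ K := by
    intro m v
    refine Filter.eventually_all.2 fun b => Filter.eventually_all.2 fun i => ?_
    filter_upwards [cone_mem {v b i}] with K hK
    exact hK (Finset.mem_singleton_self _)
  refine ⟨fun l u => ulim (cone V) (fun K => F l (fun b i => g K (u b i))), ?_, ?_⟩
  · intro l u u' huu
    obtain ⟨K, ⟨⟨h1, h2⟩, h3⟩, h4⟩ := ((((hu l u).and (hu l u')).and (hF u)).and (hF u')).exists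
    exact (iff_of_eq h1).symm.trans ((hT K l u u' h3 h4 huu).trans (iff_of_eq h2))
  · intro K
    have h1 : ∀ᶠ K' in ((cone V : Ultrafilter (Finset V)) : Filter (Finset V)),
        ∀ (l : Λ) (u : Fin (a l) → I → K), F l (fun b i => g K' (u b i)) =
          ulim (cone V) (fun K => F l (fun b i => g K (u b i))) :=
      Filter.eventually_all.2 fun l => Filter.eventually_all.2 fun u =>
        hu l (fun b i => (u b i : V))
    obtain ⟨K', h2, h3⟩ := (h1.and (cone_mem K)).exists
    have h4 : K ⊆ K' := h3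
    refine ⟨g K', fun x hx y hy => hg K' x (h4 hx) y (h4 hy),
      fun l z hz => hb K' l z fun i => h4 (hz i), fun l u hu => ?_⟩
    exact (iff_of_eq (h2 l (fun b i => ⟨u b i, hu b i⟩))).symm

end Pool.Agent.H57.AR
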