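import Pool.Agent.H13.AR.GENR
import Pool.Agent.H16.AR.BHIR
import Pool.Agent.H16.AR.LTRW
import Pool.Agent.H16.AR.MAX
import Pool.Agent.H18.AR.BKGR
import Pool.Agent.H18.AR.BLC
import Pool.Agent.H18.AR.LNK
import Pool.Agent.H19.AR.BLD
import Pool.Agent.H19.AR.FRB
import Pool.Agent.H19.AR.NEE
import Pool.Agent.H19.AR.RLZ
import Pool.Agent.H24.AR.PRD
import Pool.Agent.H3.AR.JEXR
import Pool.Agent.H3.AR.KERR
import Pool.Agent.H3.AR.PRB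
import Pool.Agent.H3.AR.SHP
import Pool.Agent.H34.AR.INLR
import Pool.Agent.H35.AR.SHV
import Pool.Agent.H35.AR.SUB
import Pool.Agent.H37.AR.JNER
import Pool.Agent.H37.AR.ORDR
import Pool.Agent.H37.AR.SEPR
import Pool.Agent.H44.AR.GlueA
import Pool.Agent.H44.AR.SPT
import Pool.Agent.H44.AR.UKM
import Pool.Agent.H47.AR.CPSR
import Pool.Agent.H47.AR.CYBR
import Pool.Agent.H57.AR.GCN
import Pool.Agent.H57.AR.SEPW
import Pool.Agent.H1.AR.TAMR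
import Pool.Agent.H19.AR.LCBR
import Pool.Agent.H26.AR.BHHR
import Pool.Agent.H39.AR.CONR
import Pool.Agent.H54.AR.CABR
import Pool.Agent.H63.AR.PRE
import Pool.Agent.H66.AR.JNEW
import Pool.Agent.H68.AR.STR
import Pool.Agent.H49.AR.PALR
import Pool.Agent.H50.AR.All
import Pool.Agent.H50.AR.SYN
import Pool.Agent.H54.AR.CR2
import Pool.Agent.H55.AR.LFTR
import Pool.Agent.H56.AR.CFR
import Pool.Agent.H56.AR.ORD
import Pool.Agent.H56.AR.TWOR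
import Pool.Agent.H57.AR.TOF
import Pool.Agent.H6.AR.MINR
import Pool.Agent.H60.AR.COL
import Pool.Agent.H60.AR.PWO
import Pool.Agent.H60.AR.SHC
import Pool.Agent.H70.AR.HH0
import Pool.Agent.H70.AR.LTRR
import Pool.Agent.H73.AR.DDXR
import Pool.Agent.H74.AR.CYPR
import Pool.Agent.H75.AR.NCT
import Pool.Agent.H77.AR.CANR
import Pool.Agent.H77.AR.CMPR
import Pool.Agent.H77.AR.PWG
import Pool.Agent.H77.AR.SHB
import Pool.Agent.H78.AR.CANR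
import Pool.Agent.H78.AR.PRM
import Pool.Agent.H81.AR.STN
import Pool.Agent.H88.AR.CMBR
import Pool.Agent.H94.AR.CF2
import Pool.Agent.H94.AR.SYR
import Pool.Agent.H95.AR.BKSR
import Pool.Agent.H96.AR.SAM
import Pool.Agent.H57.EQ.All
import Pool.Agent.H53.GR.Asm
import Pool.Agent.H53.NR.FB6
import Pool.Agent.H53.GR.VAL
import Pool.Agent.H53.GR.GOO
import Pool.Agent.H58.GR.Cyc
import Pool.Agent.H18.GC.COR
import Pool.Agent.H52.GC.K3L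
import Pool.Agent.H68.GC.OLF
import Pool.Agent.H56.GC.OLS
import Pool.Agent.H77.GC.SEL
import Pool.Agent.H77.NR.FB1
import Pool.Agent.H46.NR.FB2
import Pool.Agent.H33.NR.FB5
import Pool.Agent.H39.NR.LIN
import Pool.Agent.H56.NR.RSS
import Pool.Agent.H95.GR.CAN
import Pool.Agent.H34.GR.CNS
import Pool.Agent.H34.GR.ITR
import Pool.Agent.H42.GR.LIM
import Pool.Agent.H34.GR.MIX
import Pool.Agent.H3.GR.NR2
import Pool.Agent.H1.GR.NR3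
import Pool.Agent.H24.GR.NRI
import Pool.Agent.H36.GR.PCT
import Pool.Agent.H90.GR.STP
import Pool.Agent.H11.GR.UNI
import Pool.Agent.H54.GR.EX
import Pool.Agent.H58.CT.Final
import Pool.Agent.H50.EQ.STR

/-!
# All reducts, all arities: the parts
-/

set_option autoImplicit false

namespace Pool.Agent.H57.AR

open Pool.Agent.H68.BP Pool.Agent.H58.SF Pool.Agent.H53.NR Pool.Agent.H58.GR
open Pool.Agent.H57.SO (Pal fib)
open Pool.Agent.H53.GR (GMap Dm)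
open Pool.Agent.H57.EQ (all_SEL all_VAL)
open Function

/-! ### General facts -/

theorem all_NR3 : Pool.Agent.H53.GR.T_NR3 :=
  Pool.Agent.H1.GR.pf_NR3 (Pool.Agent.H24.GR.NRI.pf_NRI (Pool.Agent.H3.GR.pf_NR2
    Pool.Agent.H56.NR.pf_RSS (Pool.Agent.H36.GR.pf_PCT (Pool.Agent.H34.GR.pf_ITR
      Pool.Agent.H90.GR.pf_STP)) Pool.Agent.H39.NR.pf_LIN))

theorem all_CYC : Pool.Agent.H57.EQ.T_CYC :=
  Pool.Agent.H63.EQM.pf_CYC (Pool.Agent.H3.EQ.pf_CYF Pool.Agent.H58.CT.cyclic_terms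
    Pool.Agent.H18.GC.pf_COR)

theorem all_NKC : Pool.Agent.H57.EQ.T_NKC := Pool.Agent.H88.EQM.pf_NKC all_SEL

/-! ### Configurations -/

theorem all_CF2 : T_CF2 := Pool.Agent.H94.AR.pf_CF2 Pool.Agent.H56.AR.pf_CFR

theorem all_SYR : T_SYR := Pool.Agent.H94.AR.pf_SYR

theorem all_GENR : T_GENR := Pool.Agent.H13.AR.pf_GENR all_SYR

theorem all_ORDR : T_ORDR := Pool.Agent.H37.AR.pf_ORDR all_SYR

theorem all_CANR : T_CANR := Pool.Agent.H78.AR.pf_CANR pf_GCN all_NR3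

/-! ### The fibres -/

theorem all_OLSR : ∀ (σ ρ : Sig) (V S X : Type) [LinearOrder V] [Finite S] (P : Pal S X)
    (𝔸 : Str σ V) (𝔹 : Str ρ V) (M : ℕ) (c : V → V → S ⊕ X), StpR P 𝔸 𝔹 M c → ∀ H,
      GMap (fib 𝔸 M c) 𝔹 M H → HasOlsak (tf 𝔸 𝔹 M c) (tf 𝔸 𝔹 M c) := by
  have hSEL := Pool.Agent.H77.GC.pf_SEL Pool.Agent.H52.GC.pf_K3L
  have hNOS : Pool.Agent.H53.GR.T_NOSEL := by
    intro 𝓔 X 𝓛 _ _ P hP hM
    exact Pool.Agent.H58.GR.no_selects Pool.Agent.H58.CT.cyclic_terms Pool.Agent.H18.GC.pf_COR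
      hP hM
  have hVAL := Pool.Agent.H53.GR.pf_VAL Pool.Agent.H11.GR.pf_UNI
  intro σ ρ V S X _ _ P 𝔸 𝔹 M c hs H hH
  exact asm_olsR all_NR3 Pool.Agent.H95.GR.pf_CAN
    (Pool.Agent.H34.GR.pf_MIX hVAL Pool.Agent.H34.GR.pf_CNS Pool.Agent.H54.GR.pf_EX)
    Pool.Agent.H53.GR.pf_GOO hNOS (Pool.Agent.H68.GC.pf_OLF hSEL)
    (Pool.Agent.H42.GR.pf_LIM Pool.Agent.H56.NR.pf_RSS) Pool.Agent.H47.AR.pf_CPSR hs hH

theorem all_CYCR : ∀ (σ ρ : Sig) (V S X : Type) [LinearOrder V] [Finite S] (P : Pal S X)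
    (𝔸 : Str σ V) (𝔹 : Str ρ V) (M : ℕ) (c : V → V → S ⊕ X), StpR P 𝔸 𝔹 M c → ∀ h h2,
      CoreR P 𝔸 𝔹 c h h2 → ∃ N : ℕ, ∀ p : ℕ, p.Prime → N < p →
        ∃ f : (ZMod p → Dm ρ M) → Dm ρ M, IsPoly (tf 𝔸 𝔹 M c) (tf 𝔸 𝔹 M c) f ∧
          ∀ x, f (fun i => x (i + 1)) = f x := by
  intro σ ρ V S X _ _ P 𝔸 𝔹 M c hs h h2 hh
  exact asm_cycR all_OLSR (Pool.Agent.H95.AR.pf_BKSR all_SYR) Pool.Agent.H18.AR.pf_BKGR all_CYC
    hs hh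

/-! ### The template -/

theorem all_SRTR : T_SRTR :=
  Pool.Agent.H50.AR.pf_SRTR (Pool.Agent.H3.EQ.pf_CYF Pool.Agent.H58.CT.cyclic_terms
    Pool.Agent.H18.GC.pf_COR) Pool.Agent.H18.GC.pf_COR Pool.Agent.H18.GC.pf_OMG

theorem all_TOFR : T_TOFR :=
  pf_TOFR Pool.Agent.H24.AR.pf_PRD Pool.Agent.H73.AR.pf_DDXR Pool.Agent.H55.AR.pf_LFTR all_ORDR

theorem all_CYPR : T_CYPR :=
  Pool.Agent.H74.AR.pf_CYPR Pool.Agent.H73.AR.pf_DDXR Pool.Agent.H55.AR.pf_LFTR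

/-! ### Kernels -/

theorem all_SHV : T_SHV := Pool.Agent.H35.AR.pf_SHV all_CF2

theorem all_SHB : T_SHB := Pool.Agent.H77.AR.pf_SHB Pool.Agent.H96.AR.pf_SAM

theorem all_SHC : T_SHC := Pool.Agent.H60.AR.pf_SHC all_SHB

theorem all_JNEW : T_JNEW := Pool.Agent.H66.AR.pf_JNEW

theorem all_BHHR : T_BHHR :=
  Pool.Agent.H26.AR.pf_BHHR all_GENR (Pool.Agent.H1.AR.pf_TAMR all_SHV all_SHB)

/-- injections -/
theorem all_INLR : T_INLR :=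
  Pool.Agent.H34.AR.pf_INLR (Pool.Agent.H3.AR.pf_JEXR all_SHV all_SHB)
    (Pool.Agent.H37.AR.pf_JNER all_SHV all_SHC all_JNEW)
    (Pool.Agent.H56.AR.pf_TWOR all_SYR Pool.Agent.H77.AR.pf_CMPR)
    (Pool.Agent.H37.AR.pf_SEPR all_SHV all_SHC Pool.Agent.H57.AR.SEPW.pf_SEPW)
    Pool.Agent.H6.AR.pf_MINR Pool.Agent.H77.AR.pf_CMPR (Pool.Agent.H39.AR.pf_CONR all_SYR)
    (Pool.Agent.H70.AR.pf_LTRR all_SHV all_SHC (Pool.Agent.H16.AR.LTRW.pf_LTRW all_JNEW))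

/-- The template of a core does not pp-construct `K₃`. -/
theorem all_TPLR :
    ∀ (σ ρ : Sig) (V S X : Type) [LinearOrder V] [Finite S] (P : Pal S X) (𝔸 : Str σ V)
      (𝔹 : Str ρ V) (M : ℕ) (c : V → V → S ⊕ X), StpR P 𝔸 𝔹 M c → ∀ h h2,
      CoreR P 𝔸 𝔹 c h h2 → ¬ PPConstructsK3 (tpR P 𝔸 𝔹 M c) := by
  intro σ ρ V S X _ _ P 𝔸 𝔹 M c hs h h2 hh
  exact asm_tplR all_CYCR all_SRTR (Pool.Agent.H3.AR.pf_KERR all_CANR all_BHHR) all_INLR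
    (Pool.Agent.H19.AR.pf_LCBR all_CANR all_BHHR) (Pool.Agent.H88.AR.pf_CMBR all_CF2) pf_BHIR
    Pool.Agent.H47.AR.pf_CYBR (Pool.Agent.H54.AR.CABR.pf_CABR all_GENR all_CANR) all_TOFR
    all_CYPR all_NKC hs hh

/-! ### The core -/

section core

open Pool.Agent.H44.AR

theorem a_SYN : Pool.Agent.H44.AR.T_SYN := Pool.Agent.H50.AR.pf_SYN

theorem a_FRB : T_FRB := Pool.Agent.H19.AR.pf_FRB a_SYN

theorem a_UKM : T_UKM := Pool.Agent.H44.AR.pf_UKM Pool.Agent.H18.AR.pf_BLC a_FRB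

theorem a_COL : Pool.Agent.H44.AR.T_COL := Pool.Agent.H60.AR.pf_COL a_SYN

theorem a_PRE : T_PRE := Pool.Agent.H63.AR.pf_PRE

theorem all_PAR : T_PAR :=
  glue_PAR (Pool.Agent.H70.AR.pf_HH0 all_NR3
      (Pool.Agent.H60.AR.pf_PWO Pool.Agent.H77.AR.pf_PWG Pool.Agent.H19.AR.pf_RLZ)
      Pool.Agent.H77.AR.pf_CANR)
    (Pool.Agent.H68.AR.pf_STR Pool.Agent.H35.AR.pf_SUB a_PRE)
    (asm_STC Pool.Agent.H16.AR.pf_MAX
      (Pool.Agent.H3.AR.pf_SHP a_COL (Pool.Agent.H56.AR.pf_ORD a_SYN))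
      (Pool.Agent.H19.AR.pf_NEE a_COL a_FRB) a_PRE (Pool.Agent.H19.AR.pf_BLD a_SYN))
    (Pool.Agent.H81.AR.pf_STN a_UKM (Pool.Agent.H78.AR.pf_PRM a_UKM a_FRB) a_FRB)
    (Pool.Agent.H75.AR.pf_NCT a_SYN a_UKM a_FRB) (Pool.Agent.H18.AR.pf_LNK a_FRB)
    (Pool.Agent.H44.AR.pf_SPT a_SYN)
    (Pool.Agent.H3.AR.pf_PRB all_NR3 Pool.Agent.H77.AR.pf_CANR)
    Pool.Agent.H54.AR.pf_CR2

end core

/-- The theorem for all first-order reducts of structures with free amalgamation. -/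
theorem final :
    ∀ (τ σ : Sig) (B : Type) [Countable B] [Nonempty B] (𝔹 : Str τ B) (𝔸 : Str σ B),
      (∀ l, 1 ≤ τ.ar l) → Homogeneous 𝔹 → FinitelyBounded 𝔹 → FreeAmalgamation 𝔹 →
      (∀ g : B ≃ B, IsAut 𝔹 g → IsAut 𝔸 g) →
      PPConstructsK3 𝔸 ∨ ∃ (σ' : Sig) (Y : Type) (_ : Finite Y) (𝕋 : Str σ' Y),
        ¬ PPConstructsK3 𝕋 ∧ N793a5b8e.ManyOneReducible (CSP 𝔸) (CSP 𝕋) := by
  intro τ σ B _ _ 𝔹 𝔸 har hH hF hA hS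
  refine asm_finalR Pool.Agent.H77.NR.pf_FB1 Pool.Agent.H46.NR.pf_FB2 Pool.Agent.H50.EQ.pf_OLG
    Pool.Agent.H50.AR.pf_TYIR ?_ τ σ B 𝔹 𝔸 har hH hF hA hS
  intro σ ρ V _ 𝔸 𝔹 M hB hol
  exact asm_allR all_PAR Pool.Agent.H50.AR.pf_REDR all_TPLR hB hol

end Pool.Agent.H57.AR
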